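import Pool.Agent.J4H90.HL.Dig
import Pool.Agent.J4H90.PS.Asm

/-!
Products of few different factors with small digits in one base: lifting to polynomials and
Mason-Stothers with a squarefree common divisor.
-/

namespace Pool.Agent.J4H84.DS

open Polynomial UniqueFactorizationMonoid Pool.Agent.J4H90.HL Pool.Agent.J4H90.PS

lemma sm_mono {s u : ℕ} {F : ℤ[X]} (h : Sm s F) (hu : s ≤ u) : Sm u F := by
  obtain ⟨P, Q, h1, h2⟩ := h
  exact ⟨P, Q, h1, h2.trans hu⟩

lemma sm_one : Sm 1 (1 : ℤ[X]) := ⟨1, 0, by simp, by simp⟩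

lemma sm_C (a : ℕ) : Sm a (Polynomial.C (a : ℤ)) := ⟨Polynomial.C a, 0, by simp, by simp⟩

lemma sm_pow {s : ℕ} {F : ℤ[X]} (h : Sm s F) (n : ℕ) : Sm (s ^ n) (F ^ n) := by
  induction n with
  | zero => simpa using sm_one
  | succ n ih =>
    rw [pow_succ, pow_succ]
    exact ih.mul h

lemma sm_W {s : ℕ} (S : Finset ℕ) (a : ℕ → ℕ) (f : ℕ → ℤ[X]) (h : ∀ v ∈ S, Sm s (f v)) :
    Sm (s ^ ∑ v ∈ S, a v) (W S a f) := by
  classical
  unfold W
  induction S using Finset.induction_on with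
  | empty => simpa using sm_one
  | insert i S hi ih =>
    rw [Finset.prod_insert hi, Finset.sum_insert hi, pow_add]
    exact (sm_pow (h i (Finset.mem_insert_self _ _)) (a i)).mul
      (ih fun v hv => h v (Finset.mem_insert_of_mem hv))

/-- the degrees are determined by the values up to a factor `t / (2 s)` -/
lemma deg_le {t s v v' : ℕ} {F G : ℤ[X]} (hF : Sm s F) (hG : Sm s G)
    (h1 : F.eval (t : ℤ) = v) (h2 : G.eval (t : ℤ) = v') (hv' : 0 < v')
    (ht : 2 * s + 2 ≤ t) (c : 2 * s * v' < t * v) : G.natDegree ≤ F.natDegree := by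
  by_contra hcon
  push Not at hcon
  have hG0 : G ≠ 0 := by
    rintro rfl
    rw [eval_zero] at h2
    omega
  have ht1 : (1 : ℤ) ≤ t := by exact_mod_cast (by omega : 1 ≤ t)
  have g1 := lower hG0 (s := (s : ℤ)) (t := (t : ℤ)) hG.coeff (by positivity)
    (by exact_mod_cast ht)
  have g2 := hF.upper ht1
  rw [h2, Nat.abs_cast] at g1
  rw [h1, Nat.abs_cast] at g2
  have g3 : (t : ℤ) ^ (F.natDegree + 1) ≤ (t : ℤ) ^ G.natDegree :=
    pow_le_pow_right₀ ht1 hcon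
  have g4 : (2 : ℤ) * s * v' < t * v := by exact_mod_cast c
  have hs : (0 : ℤ) ≤ s := by positivity
  have g5 : (t : ℤ) * v ≤ s * (t : ℤ) ^ (F.natDegree + 1) := by
    rw [pow_succ]
    nlinarith
  have g6 : (s : ℤ) * (t : ℤ) ^ (F.natDegree + 1) ≤ s * (2 * v') :=
    mul_le_mul_of_nonneg_left (g3.trans g1) hs
  nlinarith

/-- a product with small digits, lifted -/
structure Lift (t s : ℕ) (S : Finset ℕ) (a : ℕ → ℕ) (f : ℕ → ℤ[X]) (e : ℕ) : Prop where
  sm : ∀ v ∈ S, Sm s (f v)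
  eval : ∀ v ∈ S, (f v).eval (t : ℤ) = v
  pos : ∀ v ∈ S, 0 < v
  deg : ∀ v ∈ S, (f v).natDegree = e

lemma Lift.pr {t s : ℕ} {S : Finset ℕ} {a : ℕ → ℕ} {f : ℕ → ℤ[X]} {e : ℕ}
    (h : Lift t s S a f e) : Pr t (s : ℤ) (∏ v ∈ S, |(f v).leadingCoeff| ^ a v) e S.card
      (∑ v ∈ S, a v) S a f e :=
  ⟨le_rfl, h.deg, fun v hv i => (h.sm v hv).coeff i, h.eval, h.pos, le_rfl, le_rfl, le_rfl⟩

/-- **The main step.** -/
theorem no_sol {t s : ℕ} {sx sy sz : Finset ℕ} {ax ay az : ℕ → ℕ}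
    {fx fy fz : ℕ → ℤ[X]} {ex ey ez : ℕ} (lx : Lift t s sx ax fx ex)
    (ly : Lift t s sy ay fy ey) (lz : Lift t s sz az fz ez) {A B C : ℕ} (hA : 0 < A)
    (hB : 0 < B) (hC : 0 < C)
    (ht : 2 * (A * s ^ (∑ v ∈ sx, ax v) + B * s ^ (∑ v ∈ sy, ay v) +
      C * s ^ (∑ v ∈ sz, az v)) + 2 ≤ t)
    (ht2 : s + 2 ≤ t)
    (hg : ((Nat.gcd (val sx ax) (val sy ay) : ℕ) : ℝ) < (t - ((s : ℝ) + 1)) *
      ((∏ p ∈ (Nat.gcd (val sx ax) (val sy ay)).primeFactors, p : ℕ) : ℝ))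
    (hx1 : 1 ≤ ∑ v ∈ sx, ax v) (hy1 : 1 ≤ ∑ v ∈ sy, ay v) (hz1 : 1 ≤ ∑ v ∈ sz, az v)
    (he : 1 ≤ ex + ey + ez)
    (h : A * val sx ax + B * val sy ay = C * val sz az) :
    (∑ v ∈ sx, ax v) * ex + 1 ≤ sx.card * ex + sy.card * ey + sz.card * ez ∧
    (∑ v ∈ sy, ay v) * ey + 1 ≤ sx.card * ex + sy.card * ey + sz.card * ez ∧
    (∑ v ∈ sz, az v) * ez + 1 ≤ sx.card * ex + sy.card * ey + sz.card * ez := by
  classical
  have hx := lx.pr
  have hy := ly.pr
  have hz := lz.pr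
  obtain ⟨P, hP⟩ : ∃ P : ℤ[X], P = Polynomial.C (A : ℤ) * W sx ax fx +
      Polynomial.C (B : ℤ) * W sy ay fy + -(Polynomial.C (C : ℤ) * W sz az fz) := ⟨_, rfl⟩
  have hb : P.eval (t : ℤ) = 0 := by
    rw [hP, eval_add, eval_add, eval_neg, eval_mul, eval_mul, eval_mul, eval_C, eval_C, eval_C,
      hx.W_eval, hy.W_eval, hz.W_eval]
    have : (A : ℤ) * (val sx ax : ℕ) + B * (val sy ay : ℕ) = C * (val sz az : ℕ) := by
      exact_mod_cast h
    linarith
  have hS : Sm (A * s ^ (∑ v ∈ sx, ax v) + B * s ^ (∑ v ∈ sy, ay v) +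
      C * s ^ (∑ v ∈ sz, az v)) P := by
    rw [hP]
    exact (((sm_C A).mul (sm_W sx ax fx lx.sm)).add ((sm_C B).mul (sm_W sy ay fy ly.sm))).add
      ((sm_C C).mul (sm_W sz az fz lz.sm)).neg
  have hP0 : P = 0 := by
    by_contra hne
    have h1 := lower hne (t := (t : ℤ)) hS.coeff (by positivity) (by exact_mod_cast ht)
    rw [hb, abs_zero, mul_zero] at h1
    have ht0 : (0 : ℤ) < t := by exact_mod_cast (by omega : 0 < t)
    have h3 : (0 : ℤ) < (t : ℤ) ^ P.natDegree := by positivity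
    linarith
  -- the identity over `ℚ`
  have hid : Polynomial.C (A : ℚ) * (W sx ax fx).map (Int.castRingHom ℚ) +
      Polynomial.C (B : ℚ) * (W sy ay fy).map (Int.castRingHom ℚ) =
      Polynomial.C (C : ℚ) * (W sz az fz).map (Int.castRingHom ℚ) := by
    have h1 : (Polynomial.C (A : ℤ) * W sx ax fx +
      Polynomial.C (B : ℤ) * W sy ay fy).map (Int.castRingHom ℚ) =
      (Polynomial.C (C : ℤ) * W sz az fz).map (Int.castRingHom ℚ) := by
      congr 1
      rw [hP0] at hP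
      linear_combination -hP
    simpa [Polynomial.map_add, Polynomial.map_mul] using h1
  have hinj : Function.Injective (Int.castRingHom ℚ) := Int.cast_injective
  have hxd : ((W sx ax fx).map (Int.castRingHom ℚ)).natDegree = (∑ v ∈ sx, ax v) * ex := by
    rw [natDegree_map_eq_of_injective hinj, hx.W_deg]
  have hyd : ((W sy ay fy).map (Int.castRingHom ℚ)).natDegree = (∑ v ∈ sy, ay v) * ey := by
    rw [natDegree_map_eq_of_injective hinj, hy.W_deg]
  have hzd : ((W sz az fz).map (Int.castRingHom ℚ)).natDegree = (∑ v ∈ sz, az v) * ez := by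
    rw [natDegree_map_eq_of_injective hinj, hz.W_deg]
  have hA' : (A : ℚ) ≠ 0 := by positivity
  have hB' : (B : ℚ) ≠ 0 := by positivity
  have hC' : (C : ℚ) ≠ 0 := by positivity
  obtain ⟨m1, m2, m3⟩ := mason ((Polynomial.map_ne_zero_iff hinj).2 hx.W_ne)
    ((Polynomial.map_ne_zero_iff hinj).2 hy.W_ne) ((Polynomial.map_ne_zero_iff hinj).2 hz.W_ne)
    hA' hB' hC' hid (by
    intro q h1 h2
    exact sq_unit (x := W sx ax fx) (y := W sy ay fy) (ρ := (s : ℝ) + 1) (t := t)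
      (X := val sx ax) (Y := val sy ay) hx.W_ne h1 h2 (fun z hz => by
        have := hx.W_root hz
        simpa using this)
      (by
        have : ((s + 2 : ℕ) : ℝ) ≤ (t : ℝ) := by exact_mod_cast ht2
        push_cast at this
        linarith) hx.val_pos.ne' hx.W_eval hy.W_eval hg) (by
    rw [hxd, hyd, hzd]
    have g1 := Nat.mul_le_mul_right ex hx1
    have g2 := Nat.mul_le_mul_right ey hy1
    have g3 := Nat.mul_le_mul_right ez hz1
    omega)
  have r1 := hx.W_rad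
  have r2 := hy.W_rad
  have r3 := hz.W_rad
  rw [hxd] at m1
  rw [hyd] at m2
  rw [hzd] at m3
  refine ⟨?_, ?_, ?_⟩
  · omega
  · omega
  · omega

end Pool.Agent.J4H84.DS
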