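import Mathlib

/-!
Products whose factors are sums of few powers of one base: definitions.
-/

namespace Pool.Agent.J4H84.DS

/-- `v` is a sum of at most `s` terms, each of which is `t ^ i` or `- t ^ i` for some natural number
`i` (the exponents may be large, equal or `0`) -/
def IsSparse (t s : ℕ) (v : ℤ) : Prop :=
  ∃ L L' : List ℕ, v = (L.map fun i => (t : ℤ) ^ i).sum - (L'.map fun i => (t : ℤ) ^ i).sum ∧
    L.length + L'.length ≤ s

/-- `x` is a product (a nonempty list of positive integers) with base `b` (the smallest factor) and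
spread `σ` (largest minus smallest factor), and `σ ^ 2 ≤ M b` -/
def IsProduct (M : ℝ) (b σ : ℕ) (x : List ℕ) : Prop :=
  0 < b ∧ b ∈ x ∧ b + σ ∈ x ∧ (∀ v ∈ x, b ≤ v ∧ v ≤ b + σ) ∧ (σ : ℝ) ^ 2 ≤ M * b

/-- the quotient (number of different factors) / (degree) of a product, and `0` if all factors are
at most `s` -/
noncomputable def quot (s : ℕ) (x : List ℕ) : ℝ :=
  open scoped Classical in
  if ∀ v ∈ x, v ≤ s then 0 else (x.toFinset.card : ℝ) / x.length

/-- the product of the primes dividing `g` -/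
def rad (g : ℕ) : ℕ := ∏ p ∈ g.primeFactors, p

/-- the constant `c = 2 (A + B + C) (s + 1) ^ N + 2 s (1 + r) + q + s + 4` -/
def cst (A B C N s q r : ℕ) : ℕ :=
  2 * ((A + B + C) * (s + 1) ^ N) + 2 * s * (1 + r) + q + s + 4

/-- the exponent `J (4 J D + 3) (1 + D c)` with `D = 4 N + 3` and `J = (4 D) ^ (k s)` -/
def expo (N k s c : ℕ) : ℕ :=
  (4 * (4 * N + 3)) ^ (k * s) * (4 * (4 * (4 * N + 3)) ^ (k * s) * (4 * N + 3) + 3) *
    (1 + (4 * N + 3) * c)

end Pool.Agent.J4H84.DS
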