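import Mathlib

/-!
Products whose factors have few digits in one base: definitions.
-/

namespace Pool.Agent.J4H84.DS

/-- `v` has at most `r` nonzero digits of absolute value at most `U` in base `t`: it is a sum of `r`
terms `u * t ^ m` with `m` a natural number and `u` an integer, `|u| ≤ U` -/
def FewDigits (t r U : ℕ) (v : ℤ) : Prop :=
  ∃ (m : Fin r → ℕ) (u : Fin r → ℤ), (∀ j, |u j| ≤ U) ∧ v = ∑ j, u j * (t : ℤ) ^ m j

/-- the exponent `(2 D + 1) J (4 J D + 3)` with `D = 4 N + 3` and `J = (4 D) ^ (k r)` -/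
def exq (N k r : ℕ) : ℕ :=
  (2 * (4 * N + 3) + 1) * ((4 * (4 * N + 3)) ^ (k * r) *
    (4 * (4 * (4 * N + 3)) ^ (k * r) * (4 * N + 3) + 3))

end Pool.Agent.J4H84.DS
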