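import Mathlib

/-!
Simultaneous approximation of natural numbers by multiples of one natural number.
-/

namespace Pool.Agent.J4H84.DS

/-- Dirichlet: the elements of a finite set of natural numbers are close to multiples of one
number `G`, which is not small against their maximum. -/
theorem dirichlet {K D J : ℕ} (hD : 2 ≤ D) (hJ : J = (4 * D) ^ K) (E : Finset ℕ) (M : ℕ)
    (hE : E.card ≤ K) (hM : ∀ m ∈ E, m ≤ M) (hB : J * (4 * J * D + 3) ≤ M) :
    ∃ (G : ℕ) (p : ℕ → ℕ), 1 ≤ G ∧ G ≤ M ∧ M ≤ J * (4 * J * D + 3) * G ∧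
      ∀ m ∈ E, |(m : ℤ) - p m * G| * D ≤ G := by
  classical
  have hJ1 : 1 ≤ J := by rw [hJ]; exact Nat.one_le_pow _ _ (by omega)
  have hBB : J * (4 * J * D + 3) = J * (4 * J * D + 1) + 2 * J := by ring
  rw [hBB] at hB ⊢
  have hM0 : 0 < M := by
    have : 0 < J * (4 * J * D + 1) := by positivity
    omega
  -- the pigeonhole principle
  have hbin : ∀ j m : ℕ, (j * m % M) * (4 * D) / M < 4 * D := by
    intro j m
    rw [Nat.div_lt_iff_lt_mul hM0, mul_comm]
    exact Nat.mul_lt_mul_of_pos_left (Nat.mod_lt _ hM0) (by omega)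
  obtain ⟨bin, hbin'⟩ : ∃ bin : ℕ → (E → Fin (4 * D)), ∀ j m, ((bin j m : Fin (4 * D)) : ℕ) =
      (j * (m : ℕ) % M) * (4 * D) / M := ⟨fun j m => ⟨_, hbin j m⟩, fun _ _ => rfl⟩
  have hcard : (Finset.univ : Finset (E → Fin (4 * D))).card < (Finset.range (J + 1)).card := by
    rw [Finset.card_univ, Fintype.card_fun, Fintype.card_fin, Fintype.card_coe, Finset.card_range,
      hJ]
    exact Nat.lt_succ_of_le (Nat.pow_le_pow_right (by omega) hE)
  obtain ⟨j, hj, j', hj', hne, heq⟩ := Finset.exists_ne_map_eq_of_card_lt_of_maps_to hcard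
    (f := bin) (fun _ _ => Finset.mem_coe.2 (Finset.mem_univ _))
  wlog hlt : j < j' generalizing j j'
  · exact this j' hj' j hj (Ne.symm hne) heq.symm (by omega)
  obtain ⟨q, hq⟩ : ∃ q, q = j' - j := ⟨_, rfl⟩
  have hq1 : 1 ≤ q := by omega
  have hqJ : q ≤ J := by
    have := Finset.mem_range.1 hj'
    omega
  obtain ⟨G, hG⟩ : ∃ G, G = M / q := ⟨_, rfl⟩
  obtain ⟨ρ, hρ⟩ : ∃ ρ, ρ = M % q := ⟨_, rfl⟩
  have hdiv : M = q * G + ρ := by rw [hG, hρ]; exact (Nat.div_add_mod M q).symm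
  have hρq : ρ < q := by rw [hρ]; exact Nat.mod_lt _ hq1
  have hGbig : 4 * J * D + 1 ≤ G := by
    rw [hG, Nat.le_div_iff_mul_le hq1]
    calc (4 * J * D + 1) * q ≤ (4 * J * D + 1) * J := Nat.mul_le_mul_left _ hqJ
      _ = J * (4 * J * D + 1) := mul_comm _ _
      _ ≤ M := by omega
  refine ⟨G, fun m => j' * m / M - j * m / M, by omega, ?_, ?_, ?_⟩
  · rw [hG]; exact Nat.div_le_self _ _
  · have h1 : M ≤ q * G + q * G := by
      have : ρ ≤ q * G := hρq.le.trans (Nat.le_mul_of_pos_right q (by omega))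
      omega
    calc M ≤ 2 * q * G := by linarith
      _ ≤ (J * (4 * J * D + 1) + 2 * J) * G := Nat.mul_le_mul_right G (by omega)
  · intro m hm
    have hb := congrArg (fun f => ((f ⟨m, hm⟩ : Fin (4 * D)) : ℕ)) heq
    simp only [hbin'] at hb
    obtain ⟨a, ha⟩ : ∃ a, a = j * m % M := ⟨_, rfl⟩
    obtain ⟨a', ha'⟩ : ∃ a', a' = j' * m % M := ⟨_, rfl⟩
    obtain ⟨u, hu⟩ : ∃ u, u = j * m / M := ⟨_, rfl⟩
    obtain ⟨u', hu'⟩ : ∃ u', u' = j' * m / M := ⟨_, rfl⟩
    have d1 : j * m = M * u + a := by rw [ha, hu]; exact (Nat.div_add_mod _ _).symm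
    have d2 : j' * m = M * u' + a' := by rw [ha', hu']; exact (Nat.div_add_mod _ _).symm
    have huu : u ≤ u' := by
      rw [hu, hu']
      exact Nat.div_le_div_right (Nat.mul_le_mul_right m hlt.le)
    rw [← ha, ← ha'] at hb
    beta_reduce
    rw [← hu, ← hu']
    obtain ⟨c, hc⟩ : ∃ c, c = a * (4 * D) / M := ⟨_, rfl⟩
    have b1 : a * (4 * D) = M * c + a * (4 * D) % M := by
      rw [hc]; exact (Nat.div_add_mod _ _).symm
    have b2 : a' * (4 * D) = M * c + a' * (4 * D) % M := by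
      rw [hc, hb]; exact (Nat.div_add_mod _ _).symm
    have b3 := Nat.mod_lt (a * (4 * D)) hM0
    have b4 := Nat.mod_lt (a' * (4 * D)) hM0
    obtain ⟨e, he⟩ : ∃ e : ℤ, e = (a' : ℤ) - a := ⟨_, rfl⟩
    have hee : |e| * (4 * D) < M := by
      have b5 : |e * (4 * D)| < M := by
        rw [he, abs_lt]
        have k1 : ((a : ℤ)) * (4 * D) = M * c + ((a * (4 * D) % M : ℕ) : ℤ) := by exact_mod_cast b1
        have k2 : ((a' : ℤ)) * (4 * D) = M * c + ((a' * (4 * D) % M : ℕ) : ℤ) := by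
          exact_mod_cast b2
        have k3 : ((a * (4 * D) % M : ℕ) : ℤ) < M := by exact_mod_cast b3
        have k4 : ((a' * (4 * D) % M : ℕ) : ℤ) < M := by exact_mod_cast b4
        have k5 : (0 : ℤ) ≤ ((a * (4 * D) % M : ℕ) : ℤ) := by positivity
        have k6 : (0 : ℤ) ≤ ((a' * (4 * D) % M : ℕ) : ℤ) := by positivity
        constructor <;> linarith
      rwa [abs_mul, abs_of_nonneg (by positivity : (0 : ℤ) ≤ 4 * (D : ℤ))] at b5
    obtain ⟨w, hw⟩ : ∃ w : ℤ, w = ((u' - u : ℕ) : ℤ) := ⟨_, rfl⟩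
    have hw' : w = (u' : ℤ) - u := by rw [hw]; exact Nat.cast_sub huu
    have hw0 : 0 ≤ w := by rw [hw]; positivity
    have hqz : (q : ℤ) = (j' : ℤ) - j := by rw [hq]; exact Nat.cast_sub hlt.le
    have E1 : (q : ℤ) * m = M * w + e := by
      have k1 : (j : ℤ) * m = M * u + a := by exact_mod_cast d1
      have k2 : (j' : ℤ) * m = M * u' + a' := by exact_mod_cast d2
      rw [hqz, hw', he]
      linear_combination k2 - k1
    have hMz : (M : ℤ) = q * G + ρ := by exact_mod_cast hdiv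
    have hmM : (m : ℤ) ≤ M := by exact_mod_cast hM m hm
    have hMpos : (0 : ℤ) < M := by exact_mod_cast hM0
    have hqpos : (0 : ℤ) < q := by exact_mod_cast hq1
    have hDz : (2 : ℤ) ≤ D := by exact_mod_cast hD
    have hwq : w ≤ q := by
      by_contra hcon
      push Not at hcon
      have k1 : (M : ℤ) * (q + 1) ≤ M * w := mul_le_mul_of_nonneg_left hcon hMpos.le
      have k2 : (q : ℤ) * m ≤ q * M := mul_le_mul_of_nonneg_left hmM hqpos.le
      have k3 : -|e| ≤ e := neg_abs_le e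
      have k4 : |e| < M := by
        have : |e| * 1 ≤ |e| * (4 * D) := mul_le_mul_of_nonneg_left (by linarith) (abs_nonneg e)
        linarith
      linarith
    have hρz : (ρ : ℤ) < q := by exact_mod_cast hρq
    have hρ0 : (0 : ℤ) ≤ ρ := by positivity
    have E2 : (q : ℤ) * (m - w * G) = ρ * w + e := by
      have : (q : ℤ) * (m - w * G) = q * m - w * (q * G) := by ring
      rw [this, E1]
      linear_combination w * hMz
    have E3 : (q : ℤ) * |(m : ℤ) - w * G| ≤ q * q + |e| := by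
      have k1 : (q : ℤ) * |(m : ℤ) - w * G| = |(ρ : ℤ) * w + e| := by
        rw [← E2, abs_mul, abs_of_pos hqpos]
      rw [k1]
      refine (abs_add_le _ _).trans (add_le_add ?_ le_rfl)
      rw [abs_of_nonneg (mul_nonneg hρ0 hw0)]
      exact mul_le_mul hρz.le hwq hw0 hqpos.le
    have E4 : (4 : ℤ) * J * D + 1 ≤ G := by exact_mod_cast hGbig
    have E5 : (q : ℤ) ≤ J := by exact_mod_cast hqJ
    rw [← hw]
    obtain ⟨δ, hδ⟩ : ∃ δ : ℤ, δ = |(m : ℤ) - w * G| := ⟨_, rfl⟩
    rw [← hδ] at E3 ⊢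
    have E6 : (q : ℤ) * (4 * (δ * D)) < q * (4 * G) := by
      have k1 : (q : ℤ) * (4 * (δ * D)) = 4 * D * (q * δ) := by ring
      have k2 : (4 : ℤ) * D * (q * δ) ≤ 4 * D * (q * q + |e|) :=
        mul_le_mul_of_nonneg_left E3 (by positivity)
      have k3 : (4 : ℤ) * D * (q * q + |e|) < 4 * D * (q * q) + (q * G + q) := by
        have : (M : ℤ) < q * G + q := by linarith
        linarith
      have k4 : (4 : ℤ) * D * (q * q) ≤ q * (4 * J * D) := by
        have : (4 : ℤ) * D * (q * q) = q * (4 * q * D) := by ring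
        rw [this]
        apply mul_le_mul_of_nonneg_left _ hqpos.le
        have h4D : (0 : ℤ) ≤ 4 * D := by positivity
        have k7 : (q : ℤ) * (4 * D) ≤ J * (4 * D) := mul_le_mul_of_nonneg_right E5 h4D
        linarith
      have k5 : (q : ℤ) * (4 * J * D + 1) ≤ q * G := mul_le_mul_of_nonneg_left E4 hqpos.le
      have k6 : (0 : ℤ) ≤ q * G := by positivity
      linarith
    have E7 := lt_of_mul_lt_mul_left E6 hqpos.le
    linarith

end Pool.Agent.J4H84.DS
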