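import Pool.Agent.J4H90.HL.Dig

/-!
Sums of few powers of `t`: representations without vanishing subsums, and their lift to polynomials
in `t ^ G` when all exponents are near multiples of `G`.
-/

namespace Pool.Agent.J4H84.DS

open Polynomial Pool.Agent.J4H90.HL

/-- the sum of the powers of `t` with exponents in `L` -/
def pw (t : ℕ) (L : Multiset ℕ) : ℤ := (L.map fun i => (t : ℤ) ^ i).sum

lemma pw_add (t : ℕ) (L L' : Multiset ℕ) : pw t (L + L') = pw t L + pw t L' := by
  simp [pw]

lemma pw_filter (t : ℕ) (L : Multiset ℕ) (p : ℕ → Prop) [DecidablePred p] :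
    pw t L = pw t (L.filter p) + pw t (L.filter fun i => ¬ p i) := by
  rw [← pw_add, Multiset.filter_add_not]

/-- a representation without vanishing subsums -/
theorem exists_min (t : ℕ) (L L' : Multiset ℕ) : ∃ R R' : Multiset ℕ,
    pw t R - pw t R' = pw t L - pw t L' ∧
    Multiset.card R + Multiset.card R' ≤ Multiset.card L + Multiset.card L' ∧
    ∀ (p : ℕ → Prop) [DecidablePred p], (∃ i ∈ R + R', p i) →
      pw t (R.filter p) - pw t (R'.filter p) ≠ 0 := by
  classical
  obtain ⟨n, hn⟩ : ∃ n, n = Multiset.card L + Multiset.card L' := ⟨_, rfl⟩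
  induction n using Nat.strong_induction_on generalizing L L' with
  | _ n ih =>
    by_cases h : ∀ (p : ℕ → Prop) [DecidablePred p], (∃ i ∈ L + L', p i) →
      pw t (L.filter p) - pw t (L'.filter p) ≠ 0
    · exact ⟨L, L', rfl, le_rfl, h⟩
    · push Not at h
      obtain ⟨p, hp, ⟨i, hi, hpi⟩, h0⟩ := h
      have e1 := pw_filter t L p
      have e2 := pw_filter t L' p
      have c1 : Multiset.card (L.filter p) + Multiset.card (L.filter fun i => ¬ p i) =
          Multiset.card L := by rw [← Multiset.card_add, Multiset.filter_add_not]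
      have c2 : Multiset.card (L'.filter p) + Multiset.card (L'.filter fun i => ¬ p i) =
          Multiset.card L' := by rw [← Multiset.card_add, Multiset.filter_add_not]
      have c3 : 0 < Multiset.card (L.filter p) + Multiset.card (L'.filter p) := by
        rw [← Multiset.card_add, ← Multiset.filter_add, Multiset.card_pos_iff_exists_mem]
        exact ⟨i, Multiset.mem_filter.2 ⟨hi, hpi⟩⟩
      obtain ⟨R, R', r1, r2, r3⟩ := ih _ (by omega) (L.filter fun i => ¬ p i)
        (L'.filter fun i => ¬ p i) rfl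
      refine ⟨R, R', ?_, by omega, r3⟩
      rw [r1]
      linarith

/-- the lift of one sum of powers -/
theorem lift_one {t h G : ℕ} (p a : ℕ → ℕ) (L : Multiset ℕ)
    (ha : ∀ i ∈ L, a i ≤ 2 * h ∧ i + h = a i + p i * G) (ht : 1 ≤ t) :
    ∃ P : ℕ[X], P.eval 1 ≤ Multiset.card L * t ^ (2 * h) ∧
      (P.map (Nat.castRingHom ℤ)).eval ((t : ℤ) ^ G) = (t : ℤ) ^ h * pw t L ∧
      ∀ k, ((P.coeff k : ℕ) : ℤ) * ((t : ℤ) ^ G) ^ k =
        (t : ℤ) ^ h * pw t (L.filter fun i => p i = k) := by
  induction L using Multiset.induction_on with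
  | empty => exact ⟨0, by simp, by simp [pw], fun k => by simp [pw]⟩
  | cons i L ih =>
    obtain ⟨P, h1, h2, h3⟩ := ih fun j hj => ha j (Multiset.mem_cons_of_mem hj)
    obtain ⟨ha1, ha2⟩ := ha i (Multiset.mem_cons_self i L)
    have hpow : (t : ℤ) ^ a i * ((t : ℤ) ^ G) ^ p i = (t : ℤ) ^ h * (t : ℤ) ^ i := by
      rw [← pow_mul, ← pow_add, ← pow_add]
      congr 1
      rw [add_comm h i, ha2, mul_comm G]
    refine ⟨C (t ^ a i) * X ^ p i + P, ?_, ?_, ?_⟩
    · rw [eval_add, eval_mul, eval_C, eval_pow, eval_X, one_pow, mul_one, Multiset.card_cons,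
        add_mul, one_mul]
      have : t ^ a i ≤ t ^ (2 * h) := Nat.pow_le_pow_right ht ha1
      omega
    · rw [Polynomial.map_add, eval_add, h2, pw, pw, Multiset.map_cons, Multiset.sum_cons]
      simp only [Polynomial.map_mul, Polynomial.map_pow, map_X, map_C, eval_mul, eval_pow, eval_X,
        eval_C]
      have : (Nat.castRingHom ℤ) (t ^ a i) = (t : ℤ) ^ a i := by simp
      rw [this, hpow]
      ring
    · intro k
      rw [coeff_add, coeff_C_mul, coeff_X_pow]
      by_cases hk : k = p i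
      · rw [if_pos hk, Multiset.filter_cons_of_pos (p := fun i => p i = k) _ hk.symm]
        have e1 : pw t (i ::ₘ L.filter fun i => p i = k) =
            (t : ℤ) ^ i + pw t (L.filter fun i => p i = k) := by
          simp [pw]
        rw [e1, mul_add, ← h3 k, ← hpow, hk]
        push_cast
        ring
      · rw [if_neg hk, Multiset.filter_cons_of_neg (p := fun i => p i = k) _
          (fun h => hk h.symm), ← h3 k]
        push_cast
        ring

/-- the lift of a difference -/
theorem lift_rep {t h G : ℕ} (p a : ℕ → ℕ) (L L' : Multiset ℕ)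
    (ha : ∀ i ∈ L + L', a i ≤ 2 * h ∧ i + h = a i + p i * G) (ht : 1 ≤ t) :
    ∃ F : ℤ[X], Sm ((Multiset.card L + Multiset.card L') * t ^ (2 * h)) F ∧
      F.eval ((t : ℤ) ^ G) = (t : ℤ) ^ h * (pw t L - pw t L') ∧
      ∀ k, F.coeff k * ((t : ℤ) ^ G) ^ k =
        (t : ℤ) ^ h * (pw t (L.filter fun i => p i = k) - pw t (L'.filter fun i => p i = k)) := by
  obtain ⟨P, h1, h2, h3⟩ := lift_one p a L (fun i hi => ha i (Multiset.mem_add.2 (Or.inl hi))) ht
  obtain ⟨Q, k1, k2, k3⟩ := lift_one p a L' (fun i hi => ha i (Multiset.mem_add.2 (Or.inr hi))) ht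
  refine ⟨P.map (Nat.castRingHom ℤ) - Q.map (Nat.castRingHom ℤ), ⟨P, Q, rfl, ?_⟩, ?_, fun k => ?_⟩
  · rw [add_mul]
    exact add_le_add h1 k1
  · rw [eval_sub, h2, k2]; ring
  · rw [coeff_sub, coeff_map, coeff_map, sub_mul]
    have e1 := h3 k
    have e2 := k3 k
    simp only [eq_natCast] at *
    rw [e1, e2]
    ring

/-- the exponents without a vanishing subsum give a nonconstant polynomial, so the value is
large -/
theorem large {t h G s : ℕ} (p a : ℕ → ℕ) (L L' : Multiset ℕ)
    (ha : ∀ i ∈ L + L', a i ≤ 2 * h ∧ i + h = a i + p i * G) (ht : 1 ≤ t)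
    (hcard : Multiset.card L + Multiset.card L' ≤ s)
    (hmin : ∀ (p : ℕ → Prop) [DecidablePred p], (∃ i ∈ L + L', p i) →
      pw t (L.filter p) - pw t (L'.filter p) ≠ 0)
    {M : ℕ} (hM : M ∈ L + L') (hp : 1 ≤ p M) {v : ℕ} (hv : pw t L - pw t L' = v)
    (hT : 2 * (s * t ^ (2 * h)) + 2 ≤ t ^ G) : t ^ G ≤ 2 * (t ^ h * v) := by
  obtain ⟨F, f1, f2, f3⟩ := lift_rep p a L L' ha ht
  have hc : F.coeff (p M) ≠ 0 := by
    intro h0
    have h1 := f3 (p M)
    rw [h0, zero_mul] at h1
    have h2 := hmin (fun i => p i = p M) ⟨M, hM, rfl⟩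
    have h3 : (t : ℤ) ^ h ≠ 0 := by
      have : (0 : ℤ) < t := by exact_mod_cast ht
      positivity
    exact (mul_ne_zero h3 h2) h1.symm
  have hF : F ≠ 0 := by
    rintro rfl
    exact hc (by simp)
  have hdeg : 1 ≤ F.natDegree := hp.trans (le_natDegree_of_ne_zero hc)
  have hs : (Multiset.card L + Multiset.card L') * t ^ (2 * h) ≤ s * t ^ (2 * h) :=
    Nat.mul_le_mul_right _ hcard
  have h1 := lower hF (s := ((s * t ^ (2 * h) : ℕ) : ℤ)) (t := (t : ℤ) ^ G)
    (fun i => (f1.coeff i).trans (by exact_mod_cast hs)) (by positivity) (by exact_mod_cast hT)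
  rw [f2, hv] at h1
  have h2 : (1 : ℤ) ≤ (t : ℤ) ^ G := by
    have : 1 ≤ t ^ G := Nat.one_le_pow _ _ ht
    exact_mod_cast this
  have h3 : (t : ℤ) ^ G ≤ ((t : ℤ) ^ G) ^ F.natDegree := le_self_pow₀ h2 (by omega)
  have h4 : |(t : ℤ) ^ h * ((v : ℕ) : ℤ)| = (t : ℤ) ^ h * v := abs_of_nonneg (by positivity)
  rw [h4] at h1
  exact_mod_cast h3.trans h1

end Pool.Agent.J4H84.DS
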