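import Pool.Agent.J4H84.DS.Core
import Pool.Agent.J4H84.DS.Defs
import Pool.Agent.J4H84.DS.Dir
import Pool.Agent.J4H84.DS.Rep

/-!
`A X + B Y = C Z` in products whose factors are sums of few powers of one base: proofs.
-/

namespace Pool.Agent.J4H84.DS

open Polynomial Pool.Agent.J4H90.HL Pool.Agent.J4H90.PS

theorem poly_list (t : ℕ) (L : List ℕ) : ∃ P : ℕ[X], P.eval 1 = L.length ∧
    (P.map (Nat.castRingHom ℤ)).eval (t : ℤ) = (L.map fun i => (t : ℤ) ^ i).sum := by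
  induction L with
  | nil => exact ⟨0, by simp, by simp⟩
  | cons i L ih =>
    obtain ⟨P, h1, h2⟩ := ih
    refine ⟨X ^ i + P, by simp [h1, add_comm], ?_⟩
    simp [h2]

theorem IsSparse.poly {t s : ℕ} {v : ℤ} (h : IsSparse t s v) :
    ∃ F : ℤ[X], Sm s F ∧ F.eval (t : ℤ) = v := by
  obtain ⟨L, L', rfl, h1⟩ := h
  obtain ⟨P, p1, p2⟩ := poly_list t L
  obtain ⟨Q, q1, q2⟩ := poly_list t L'
  exact ⟨_, ⟨P, Q, rfl, by rw [p1, q1]; exact h1⟩, by rw [eval_sub, p2, q2]⟩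

theorem list_digits (t : ℕ) (D : List ℕ) : ∃ L : List ℕ, L.length = D.sum ∧
    (L.map fun i => (t : ℤ) ^ i).sum = ((Nat.ofDigits t D : ℕ) : ℤ) := by
  induction D with
  | nil => exact ⟨[], by simp, by simp⟩
  | cons d D ih =>
    obtain ⟨L, h1, h2⟩ := ih
    refine ⟨List.replicate d 0 ++ L.map (· + 1), by simp [h1], ?_⟩
    have h3 : ((L.map (· + 1)).map fun i => (t : ℤ) ^ i) =
        (L.map fun i => (t : ℤ) * (t : ℤ) ^ i) := by
      rw [List.map_map]
      refine List.map_congr_left fun i _ => ?_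
      simp [pow_succ, mul_comm]
    rw [List.map_append, List.sum_append, h3, List.sum_map_mul_left, h2, Nat.ofDigits_cons]
    simp

/-- lifting a product -/
theorem lift {t s : ℕ} (ht : 2 * s + 2 ≤ t) {x : List ℕ} (hx : x ≠ []) (hpos : ∀ v ∈ x, 0 < v)
    (hs : ∀ v ∈ x, ∃ F : ℤ[X], Sm s F ∧ F.eval (t : ℤ) = v)
    (hc : ∀ v ∈ x, ∀ v' ∈ x, 2 * s * v' < t * v) :
    ∃ f e, Lift t s x.toFinset (fun v => x.count v) f e ∧ (e = 0 ↔ ∀ v ∈ x, v ≤ s) := by
  have h1 : ∀ v : ℕ, ∃ F : ℤ[X], v ∈ x → Sm s F ∧ F.eval (t : ℤ) = v := by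
    intro v
    by_cases hv : v ∈ x
    · obtain ⟨F, h1, h2⟩ := hs v hv
      exact ⟨F, fun _ => ⟨h1, h2⟩⟩
    · exact ⟨0, fun h => absurd h hv⟩
  choose F hF using h1
  obtain ⟨w, hw⟩ := List.exists_mem_of_ne_nil x hx
  have hdeg : ∀ v ∈ x, (F v).natDegree = (F w).natDegree := fun v hv =>
    le_antisymm
      (deg_le (hF w hw).1 (hF v hv).1 (hF w hw).2 (hF v hv).2 (hpos v hv) ht (hc w hw v hv))
      (deg_le (hF v hv).1 (hF w hw).1 (hF v hv).2 (hF w hw).2 (hpos w hw) ht (hc v hv w hw))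
  have ht1 : (1 : ℤ) ≤ t := by exact_mod_cast (by omega : 1 ≤ t)
  refine ⟨F, (F w).natDegree, ⟨fun v hv => (hF v (List.mem_toFinset.1 hv)).1,
    fun v hv => (hF v (List.mem_toFinset.1 hv)).2, fun v hv => hpos v (List.mem_toFinset.1 hv),
    fun v hv => hdeg v (List.mem_toFinset.1 hv)⟩, ?_, ?_⟩
  · intro h0 v hv
    have h2 := (hF v hv).1.upper ht1
    rw [(hF v hv).2, hdeg v hv, h0, pow_zero, mul_one, Nat.abs_cast] at h2
    exact_mod_cast h2
  · intro h0
    by_contra hne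
    have hw0 : F w ≠ 0 := by
      intro h2
      apply hne
      rw [h2, natDegree_zero]
    have h2 := lower hw0 (t := (t : ℤ)) (hF w hw).1.coeff (by positivity) (by exact_mod_cast ht)
    rw [(hF w hw).2, Nat.abs_cast] at h2
    have h3 : (t : ℤ) ≤ (t : ℤ) ^ (F w).natDegree := le_self_pow₀ ht1 hne
    have h4 : ((w : ℕ) : ℤ) ≤ s := by exact_mod_cast h0 w hw
    have h5 : 2 * (s : ℤ) + 2 ≤ t := by exact_mod_cast ht
    linarith

theorem val_eq (x : List ℕ) : val x.toFinset (fun v => x.count v) = x.prod :=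
  (Finset.prod_list_count x).symm

theorem card_pos {x : List ℕ} (h : x ≠ []) : 1 ≤ x.toFinset.card :=
  Finset.card_pos.2 ((List.toFinset_nonempty_iff x).2 h)

theorem length_pos {x : List ℕ} (h : x ≠ []) : 1 ≤ x.length := List.length_pos_iff.2 h

theorem arith {a b c e f g l m n : ℕ} (ha : 1 ≤ a) (hb : 1 ≤ b) (hc : 1 ≤ c)
    (he : 0 < e + f + g) (hl : 1 ≤ l) (hm : 1 ≤ m) (hn : 1 ≤ n)
    (h1 : l * e + 1 ≤ a * e + b * f + c * g) (h2 : m * f + 1 ≤ a * e + b * f + c * g)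
    (h3 : n * g + 1 ≤ a * e + b * f + c * g) :
    1 < (if e = 0 then 0 else (a : ℝ) / l) + (if f = 0 then 0 else (b : ℝ) / m) +
      (if g = 0 then 0 else (c : ℝ) / n) := by
  obtain ⟨T, hT⟩ : ∃ T : ℝ, T = (a : ℝ) * e + b * f + c * g := ⟨_, rfl⟩
  have k1 : (l : ℝ) * e + 1 ≤ T := by rw [hT]; exact_mod_cast h1
  have k2 : (m : ℝ) * f + 1 ≤ T := by rw [hT]; exact_mod_cast h2
  have k3 : (n : ℝ) * g + 1 ≤ T := by rw [hT]; exact_mod_cast h3
  have hT0 : 0 < T := by
    have : (0 : ℝ) ≤ (l : ℝ) * e := by positivity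
    linarith
  have key : ∀ a' e' l' : ℕ, 1 ≤ a' → 1 ≤ l' → e' ≠ 0 → (l' : ℝ) * e' + 1 ≤ T →
      (a' : ℝ) * e' / T < (if e' = 0 then 0 else (a' : ℝ) / l') := by
    intro a' e' l' ha' hl' he' h
    have p1 : (0 : ℝ) < a' := by exact_mod_cast ha'
    have p3 : (0 : ℝ) < l' := by exact_mod_cast hl'
    rw [if_neg he', div_lt_div_iff₀ hT0 p3]
    have : (a' : ℝ) * ((l' : ℝ) * e') < a' * T := by
      apply mul_lt_mul_of_pos_left _ p1
      linarith
    linarith
  have key' : ∀ a' e' l' : ℕ, 1 ≤ a' → 1 ≤ l' → (l' : ℝ) * e' + 1 ≤ T →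
      (a' : ℝ) * e' / T ≤ (if e' = 0 then 0 else (a' : ℝ) / l') := by
    intro a' e' l' ha' hl' h
    by_cases he' : e' = 0
    · rw [if_pos he', he']; simp
    · exact (key a' e' l' ha' hl' he' h).le
  have q1 := key' a e l ha hl k1
  have q2 := key' b f m hb hm k2
  have q3 := key' c g n hc hn k3
  have q4 : (a : ℝ) * e / T + (b : ℝ) * f / T + (c : ℝ) * g / T = 1 := by
    rw [← add_div, ← add_div, ← hT]
    exact div_self hT0.ne'
  by_cases he' : e = 0
  · by_cases hf' : f = 0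
    · have := key c g n hc hn (by omega) k3
      linarith
    · have := key b f m hb hm hf' k2
      linarith
  · have := key a e l ha hl he' k1
    linarith

/-- a product whose factors are positive, sparse and close to each other -/
def Close (t s : ℕ) (x : List ℕ) : Prop :=
  x ≠ [] ∧ (∀ v ∈ x, 0 < v ∧ ∃ F : ℤ[X], Sm s F ∧ F.eval (t : ℤ) = v) ∧
    ∀ v ∈ x, ∀ v' ∈ x, 2 * s * v' < t * v

theorem quot_eq {s e : ℕ} {x : List ℕ} (h : e = 0 ↔ ∀ v ∈ x, v ≤ s) :
    quot s x = if e = 0 then 0 else (x.toFinset.card : ℝ) / x.length := by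
  unfold quot
  by_cases h0 : e = 0
  · rw [if_pos (h.1 h0), if_pos h0]
  · rw [if_neg fun h1 => h0 (h.2 h1), if_neg h0]

/-- the general statement -/
theorem main {A B C s t : ℕ} (hA : 0 < A) (hB : 0 < B) (hC : 0 < C) {x y z : List ℕ}
    (hx : Close t s x) (hy : Close t s y) (hz : Close t s z)
    (ht : 2 * (A * s ^ x.length + B * s ^ y.length + C * s ^ z.length) + 2 ≤ t)
    (hg : Nat.gcd x.prod y.prod + (s + 1) * rad (Nat.gcd x.prod y.prod) <
      t * rad (Nat.gcd x.prod y.prod))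
    (h : A * x.prod + B * y.prod = C * z.prod) (hne : ∃ v ∈ x ++ y ++ z, s < v) :
    1 < quot s x + quot s y + quot s z := by
  have hss : 2 * s + 2 ≤ t := by
    have h0 := length_pos hx.1
    have h1 : s ≤ s ^ x.length := Nat.le_self_pow (by omega) s
    have h2 : s ^ x.length ≤ A * s ^ x.length := Nat.le_mul_of_pos_left _ hA
    have h3 : 2 * s ≤ 2 * (A * s ^ x.length + B * s ^ y.length + C * s ^ z.length) := by
      have : A * s ^ x.length ≤ A * s ^ x.length + B * s ^ y.length + C * s ^ z.length := by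
        omega
      omega
    omega
  obtain ⟨fx, e, lx, ex⟩ := lift hss hx.1 (fun v hv => (hx.2.1 v hv).1)
    (fun v hv => (hx.2.1 v hv).2) hx.2.2
  obtain ⟨fy, f, ly, ey⟩ := lift hss hy.1 (fun v hv => (hy.2.1 v hv).1)
    (fun v hv => (hy.2.1 v hv).2) hy.2.2
  obtain ⟨fz, g, lz, ez⟩ := lift hss hz.1 (fun v hv => (hz.2.1 v hv).1)
    (fun v hv => (hz.2.1 v hv).2) hz.2.2
  have hefg : 0 < e + f + g := by
    obtain ⟨v, hv, h1⟩ := hne
    by_contra h0
    have h2 : e = 0 ∧ f = 0 ∧ g = 0 := by omega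
    rw [List.mem_append, List.mem_append] at hv
    rcases hv with (hv | hv) | hv
    · have := ex.1 h2.1 v hv
      omega
    · have := ey.1 h2.2.1 v hv
      omega
    · have := ez.1 h2.2.2 v hv
      omega
  have hsum := no_sol lx ly lz hA hB hC (by
      rw [List.sum_toFinset_count_eq_length, List.sum_toFinset_count_eq_length,
        List.sum_toFinset_count_eq_length]
      exact ht) (by omega) (by
      rw [val_eq, val_eq]
      change ((Nat.gcd x.prod y.prod : ℕ) : ℝ) < ((t : ℝ) - ((s : ℝ) + 1)) *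
        ((rad (Nat.gcd x.prod y.prod) : ℕ) : ℝ)
      have h1 : ((Nat.gcd x.prod y.prod : ℕ) : ℝ) +
          ((s : ℝ) + 1) * ((rad (Nat.gcd x.prod y.prod) : ℕ) : ℝ) <
          t * ((rad (Nat.gcd x.prod y.prod) : ℕ) : ℝ) := by exact_mod_cast hg
      linarith) (by
      rw [List.sum_toFinset_count_eq_length]
      exact length_pos hx.1) (by
      rw [List.sum_toFinset_count_eq_length]
      exact length_pos hy.1) (by
      rw [List.sum_toFinset_count_eq_length]
      exact length_pos hz.1) hefg (by rw [val_eq, val_eq, val_eq]; exact h)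
  rw [List.sum_toFinset_count_eq_length, List.sum_toFinset_count_eq_length,
    List.sum_toFinset_count_eq_length] at hsum
  rw [quot_eq ex, quot_eq ey, quot_eq ez]
  exact arith (card_pos hx.1) (card_pos hy.1) (card_pos hz.1) hefg (length_pos hx.1)
    (length_pos hy.1) (length_pos hz.1) hsum.1 hsum.2.1 hsum.2.2

theorem card_le {s : ℕ} {x : List ℕ} {b : ℕ} (h : ∀ v ∈ x, b ≤ v ∧ v ≤ b + s) :
    x.toFinset.card ≤ s + 1 := by
  have h1 : x.toFinset ⊆ Finset.Icc b (b + s) := fun v hv =>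
    Finset.mem_Icc.2 (h v (List.mem_toFinset.1 hv))
  refine (Finset.card_le_card h1).trans ?_
  rw [Nat.card_Icc]
  omega

theorem quot_le {M : ℝ} {b σ s : ℕ} {x : List ℕ} (h : IsProduct M b σ x) :
    quot s x ≤ (σ + 1 : ℝ) / x.length := by
  have h1 : (x.toFinset.card : ℝ) ≤ σ + 1 := by exact_mod_cast card_le h.2.2.2.1
  unfold quot
  split_ifs
  · positivity
  · gcongr

theorem IsProduct.near {M : ℝ} {b σ s t : ℕ} {x : List ℕ} (h : IsProduct M b σ x)
    (ht : 2 * s * (1 + √M) < t) : ∀ v ∈ x, ∀ v' ∈ x, 2 * s * v' < t * v := by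
  obtain ⟨hb, h1, h2, h3, h4⟩ := h
  intro v hv v' hv'
  have hb' : (1 : ℝ) ≤ b := by exact_mod_cast hb
  have hM : 0 ≤ M := by
    by_contra hM
    push Not at hM
    have : M * b < 0 := mul_neg_of_neg_of_pos hM (by linarith)
    nlinarith [sq_nonneg (σ : ℝ)]
  have h5 : (σ : ℝ) ≤ √M * b := by
    have h6 : (σ : ℝ) ≤ √(M * b) := Real.le_sqrt_of_sq_le h4
    rw [Real.sqrt_mul hM] at h6
    have h7 : √(b : ℝ) ≤ b := by
      rw [Real.sqrt_le_left (by linarith)]
      nlinarith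
    exact h6.trans (mul_le_mul_of_nonneg_left h7 (Real.sqrt_nonneg M))
  have h6 : (v' : ℝ) ≤ (1 + √M) * b := by
    have : ((v' : ℕ) : ℝ) ≤ b + σ := by exact_mod_cast (h3 v' hv').2
    linarith
  have h7 : (b : ℝ) ≤ v := by exact_mod_cast (h3 v hv).1
  have h8 : (2 * s * v' : ℝ) < t * v := by
    calc (2 * s * v' : ℝ) ≤ 2 * s * ((1 + √M) * b) := by gcongr
      _ = (2 * s * (1 + √M)) * b := by ring
      _ < t * b := by gcongr
      _ ≤ t * v := by gcongr
  exact_mod_cast h8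

theorem IsProduct.pos {M : ℝ} {b σ : ℕ} {x : List ℕ} (h : IsProduct M b σ x) :
    ∀ v ∈ x, 0 < v := fun v hv => h.1.trans_le (h.2.2.2.1 v hv).1

theorem IsProduct.close {M : ℝ} {b σ s t : ℕ} {x : List ℕ} (h : IsProduct M b σ x)
    (ht : 2 * s * (1 + √M) < t) (hs : ∀ v ∈ x, IsSparse t s v) : Close t s x :=
  ⟨List.ne_nil_of_mem h.2.1, fun v hv => ⟨h.pos v hv, (hs v hv).poly⟩, h.near ht⟩

/-- the statement for `Q1` -/
theorem trivial_of {A B C s t : ℕ} {M Q : ℝ} (hA : 0 < A) (hB : 0 < B) (hC : 0 < C)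
    (hM : 2 * s * (1 + √M) < t) (hQ : Q + s + 1 < t) {x y z : List ℕ}
    {b b' b'' σ σ' σ'' : ℕ} (hx : IsProduct M b σ x) (hy : IsProduct M b' σ' y)
    (hz : IsProduct M b'' σ'' z) (hs : ∀ v ∈ x ++ y ++ z, IsSparse t s v)
    (ht : 2 * (A * s ^ x.length + B * s ^ y.length + C * s ^ z.length) + 2 ≤ t)
    (h : A * x.prod + B * y.prod = C * z.prod)
    (hg : (Nat.gcd x.prod y.prod : ℝ) ≤ Q * rad (Nat.gcd x.prod y.prod))
    (hF : (σ + 1 : ℝ) / x.length + (σ' + 1 : ℝ) / y.length + (σ'' + 1 : ℝ) / z.length ≤ 1) :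
    ∀ v ∈ x ++ y ++ z, v ≤ s := by
  by_contra hne
  push Not at hne
  have h1 : 0 < rad (Nat.gcd x.prod y.prod) :=
    Finset.prod_pos fun p hp => (Nat.prime_of_mem_primeFactors hp).pos
  have h2 := main hA hB hC (hx.close hM fun v hv => hs v (by simp [hv]))
    (hy.close hM fun v hv => hs v (by simp [hv])) (hz.close hM fun v hv => hs v (by simp [hv]))
    ht (by
      have h3 : (0 : ℝ) < rad (Nat.gcd x.prod y.prod) := by exact_mod_cast h1
      have h4 : (Nat.gcd x.prod y.prod : ℝ) + ((s : ℝ) + 1) * rad (Nat.gcd x.prod y.prod) <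
          t * rad (Nat.gcd x.prod y.prod) := by
        calc (Nat.gcd x.prod y.prod : ℝ) + ((s : ℝ) + 1) * rad (Nat.gcd x.prod y.prod)
            ≤ Q * rad (Nat.gcd x.prod y.prod) +
              ((s : ℝ) + 1) * rad (Nat.gcd x.prod y.prod) := by gcongr
          _ = (Q + s + 1) * rad (Nat.gcd x.prod y.prod) := by ring
          _ < t * rad (Nat.gcd x.prod y.prod) := by gcongr
      exact_mod_cast h4) h hne
  have h3 := quot_le (s := s) hx
  have h4 := quot_le (s := s) hy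
  have h5 := quot_le (s := s) hz
  linarith

theorem prod_map_mul (τ : ℕ) (x : List ℕ) : (x.map (τ * ·)).prod = τ ^ x.length * x.prod := by
  induction x with
  | nil => simp
  | cons a x ih =>
    rw [List.map_cons, List.prod_cons, ih, List.length_cons, List.prod_cons, pow_succ]
    ring

theorem quot_map_le {M : ℝ} {b σ S τ : ℕ} {x : List ℕ} (h : IsProduct M b σ x) :
    quot S (x.map (τ * ·)) ≤ (σ + 1 : ℝ) / x.length := by
  classical
  have h0 : (x.map (τ * ·)).toFinset.card ≤ x.toFinset.card := by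
    have hsub : (x.map (τ * ·)).toFinset ⊆ x.toFinset.image (τ * ·) := by
      intro u hu
      rw [List.mem_toFinset, List.mem_map] at hu
      obtain ⟨v, hv, rfl⟩ := hu
      exact Finset.mem_image_of_mem _ (List.mem_toFinset.2 hv)
    exact (Finset.card_le_card hsub).trans Finset.card_image_le
  have h1 : ((x.map (τ * ·)).toFinset.card : ℝ) ≤ σ + 1 := by
    exact_mod_cast h0.trans (card_le h.2.2.2.1)
  unfold quot
  rw [List.length_map]
  split_ifs
  · positivity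
  · gcongr

theorem IsSparse.mset {t s : ℕ} {v : ℤ} (h : IsSparse t s v) : ∃ L L' : Multiset ℕ,
    pw t L - pw t L' = v ∧ Multiset.card L + Multiset.card L' ≤ s := by
  obtain ⟨L, L', h1, h2⟩ := h
  refine ⟨(L : Multiset ℕ), (L' : Multiset ℕ), ?_, by simpa using h2⟩
  rw [h1, pw, pw, Multiset.map_coe, Multiset.map_coe, Multiset.sum_coe, Multiset.sum_coe]

theorem pw_le {t m : ℕ} (ht : 1 ≤ t) (L : Multiset ℕ) (h : ∀ i ∈ L, i ≤ m) :
    pw t L ≤ (Multiset.card L : ℤ) * (t : ℤ) ^ m ∧ 0 ≤ pw t L := by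
  have ht' : (1 : ℤ) ≤ t := by exact_mod_cast ht
  induction L using Multiset.induction_on with
  | empty => simp [pw]
  | cons i L ih =>
    obtain ⟨h1, h2⟩ := ih fun j hj => h j (Multiset.mem_cons_of_mem hj)
    have h3 : (t : ℤ) ^ i ≤ (t : ℤ) ^ m :=
      pow_le_pow_right₀ ht' (h i (Multiset.mem_cons_self i L))
    have h4 : pw t (i ::ₘ L) = (t : ℤ) ^ i + pw t L := by simp [pw]
    have h5 : (0 : ℤ) ≤ (t : ℤ) ^ i := by positivity
    rw [h4, Multiset.card_cons]
    push_cast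
    constructor
    · linarith
    · linarith

theorem gcd_mul_le (a b X Y : ℕ) (hX : 0 < X) (ha : 0 < a) (hb : 0 < b) :
    Nat.gcd (a * X) (b * Y) ≤ a * b * Nat.gcd X Y := by
  have h1 : Nat.gcd (a * X) (b * Y) ∣ Nat.gcd (a * b * X) (a * b * Y) := by
    apply Nat.dvd_gcd
    · exact (Nat.gcd_dvd_left _ _).trans ⟨b, by ring⟩
    · exact (Nat.gcd_dvd_right _ _).trans ⟨a, by ring⟩
  rw [Nat.gcd_mul_left] at h1
  exact Nat.le_of_dvd (Nat.mul_pos (Nat.mul_pos ha hb) (Nat.gcd_pos_of_pos_left _ hX)) h1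

theorem rad_pos (g : ℕ) : 0 < rad g :=
  Finset.prod_pos fun _ hp => (Nat.prime_of_mem_primeFactors hp).pos

theorem rad_mono {g g' : ℕ} (h : g ∣ g') (hg : g' ≠ 0) : rad g ≤ rad g' :=
  Finset.prod_le_prod_of_subset_of_one_le' (Nat.primeFactors_mono h hg)
    fun _ hp _ => (Nat.prime_of_mem_primeFactors hp).one_le

/-- one base -/
theorem fixed_base {A B C N s t q r k' : ℕ} {M Q : ℝ} (hA : 0 < A) (hB : 0 < B) (hC : 0 < C)
    (ht : 2 ≤ t) (hr : √M ≤ r) (hq : Q ≤ q) {x y z : List ℕ} {b b' b'' σ σ' σ'' : ℕ}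
    (hx : IsProduct M b σ x) (hy : IsProduct M b' σ' y) (hz : IsProduct M b'' σ'' z)
    (hs : ∀ v ∈ x ++ y ++ z, IsSparse t s v) (lx : x.length ≤ N) (ly : y.length ≤ N)
    (lz : z.length ≤ N) (hk' : (x ++ y ++ z).toFinset.card ≤ k')
    (h : A * x.prod + B * y.prod = C * z.prod)
    (hg : (Nat.gcd x.prod y.prod : ℝ) ≤ Q * rad (Nat.gcd x.prod y.prod))
    (hF : (σ + 1 : ℝ) / x.length + (σ' + 1 : ℝ) / y.length + (σ'' + 1 : ℝ) / z.length ≤ 1) :
    ∀ v ∈ x ++ y ++ z, v ≤ s * t ^ expo N k' s (cst A B C N s q r) := by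
  classical
  obtain ⟨D, hD⟩ : ∃ D, D = 4 * N + 3 := ⟨_, rfl⟩
  obtain ⟨J, hJ⟩ : ∃ J, J = (4 * D) ^ (k' * s) := ⟨_, rfl⟩
  obtain ⟨B0, hB0'⟩ : ∃ B0, B0 = J * (4 * J * D + 3) := ⟨_, rfl⟩
  have hB0 := dirichlet (K := k' * s) (D := D) (by omega) hJ
  rw [← hB0'] at hB0
  obtain ⟨c, hc'⟩ : ∃ c, c = cst A B C N s q r := ⟨_, rfl⟩
  have hc : c = 2 * ((A + B + C) * (s + 1) ^ N) + 2 * s * (1 + r) + q + s + 4 := hc'
  obtain ⟨M0, hM0'⟩ : ∃ M0, M0 = expo N k' s c := ⟨_, rfl⟩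
  have hM0 : M0 = B0 + B0 * (D * c) := by
    rw [hM0', expo, hB0', hJ, hD]
    ring
  rw [← hc', ← hM0']
  by_contra hcon
  push Not at hcon
  obtain ⟨v0, hv0, hbig⟩ := hcon
  have ht1 : 1 ≤ t := by omega
  -- representations
  have hrep : ∀ v : ℕ, ∃ R R' : Multiset ℕ, v ∈ x ++ y ++ z → pw t R - pw t R' = v ∧
      Multiset.card R + Multiset.card R' ≤ s ∧
      ∀ (p : ℕ → Prop) [DecidablePred p], (∃ i ∈ R + R', p i) →
        pw t (R.filter p) - pw t (R'.filter p) ≠ 0 := by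
    intro v
    by_cases hv : v ∈ x ++ y ++ z
    · obtain ⟨L, L', h1, h2⟩ := (hs v hv).mset
      obtain ⟨R, R', r1, r2, r3⟩ := exists_min t L L'
      exact ⟨R, R', fun _ => ⟨r1.trans h1, r2.trans h2, r3⟩⟩
    · exact ⟨0, 0, fun h => absurd h hv⟩
  choose R R' hR using hrep
  obtain ⟨E, hE⟩ : ∃ E : Finset ℕ, E = (x ++ y ++ z).toFinset.biUnion
      fun v => (R v + R' v).toFinset := ⟨_, rfl⟩
  have hEmem : ∀ v ∈ x ++ y ++ z, ∀ i ∈ R v + R' v, i ∈ E := by
    intro v hv i hi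
    rw [hE, Finset.mem_biUnion]
    exact ⟨v, List.mem_toFinset.2 hv, Multiset.mem_toFinset.2 hi⟩
  have hEcard : E.card ≤ k' * s := by
    rw [hE]
    refine (Finset.card_biUnion_le_card_mul _ _ s fun v hv => ?_).trans
      (Nat.mul_le_mul_right s hk')
    exact (Multiset.toFinset_card_le _).trans
      (by rw [Multiset.card_add]; exact (hR v (List.mem_toFinset.1 hv)).2.1)
  -- a large exponent
  obtain ⟨i0, hi0, hi0M⟩ : ∃ i ∈ R v0 + R' v0, M0 < i := by
    by_contra hno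
    push Not at hno
    obtain ⟨h1, h2, -⟩ := hR v0 hv0
    have h3 := (pw_le ht1 (R v0) (m := M0) fun i hi => hno i (Multiset.mem_add.2 (Or.inl hi))).1
    have h4 := (pw_le ht1 (R' v0) (m := M0) fun i hi => hno i (Multiset.mem_add.2 (Or.inr hi))).2
    have h5 : (Multiset.card (R v0) : ℤ) * (t : ℤ) ^ M0 ≤ s * (t : ℤ) ^ M0 := by
      apply mul_le_mul_of_nonneg_right _ (by positivity)
      exact_mod_cast (by omega : Multiset.card (R v0) ≤ s)
    have h6 : ((s * t ^ M0 : ℕ) : ℤ) < v0 := by exact_mod_cast hbig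
    push_cast at h6
    linarith
  obtain ⟨Mx, hMx, hmax⟩ := Finset.exists_max_image E id ⟨i0, hEmem v0 hv0 i0 hi0⟩
  simp only [id] at hmax
  obtain ⟨v1, hv1, hMx1⟩ : ∃ v ∈ x ++ y ++ z, Mx ∈ R v + R' v := by
    rw [hE, Finset.mem_biUnion] at hMx
    obtain ⟨v, hv, h1⟩ := hMx
    exact ⟨v, List.mem_toFinset.1 hv, Multiset.mem_toFinset.1 h1⟩
  have hMxM0 : M0 < Mx := hi0M.trans_le (hmax i0 (hEmem v0 hv0 i0 hi0))
  obtain ⟨G, p, hG1, hGM, hMG, hclose⟩ := hB0 E Mx hEcard hmax (by omega)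
  obtain ⟨k, hk⟩ : ∃ k, k = G / D := ⟨_, rfl⟩
  have hGc : D * c < G := by
    have h1 : B0 * (D * c) < B0 * G := by omega
    exact lt_of_mul_lt_mul_left h1 (Nat.zero_le _)
  have hkc : c ≤ k := by
    rw [hk, Nat.le_div_iff_mul_le (by omega), mul_comm]
    exact hGc.le
  have hkG : k * D ≤ G := by rw [hk]; exact Nat.div_mul_le_self _ _
  obtain ⟨a, ha⟩ : ∃ a : ℕ → ℕ, a = fun i => i + k - p i * G := ⟨_, rfl⟩
  have hak : ∀ i ∈ E, a i ≤ 2 * k ∧ i + k = a i + p i * G := by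
    intro i hi
    have h1 := hclose i hi
    have h2 : ((i : ℤ) - p i * G).natAbs ≤ k := by
      rw [hk, Nat.le_div_iff_mul_le (by omega)]
      rw [← Int.natCast_natAbs] at h1
      exact_mod_cast h1
    have h3 : ((p i * G : ℕ) : ℤ) = (p i : ℤ) * G := by push_cast; ring
    rw [← h3] at h2
    rw [ha]
    beta_reduce
    generalize p i * G = w at h2 ⊢
    omega
  have hpM : 1 ≤ p Mx := by
    by_contra h0
    have h1 := hclose Mx hMx
    have h2 : p Mx = 0 := by omega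
    rw [h2, Nat.cast_zero, zero_mul, sub_zero, Nat.abs_cast] at h1
    have h3 : Mx * D ≤ G := by exact_mod_cast h1
    have h4 : Mx * 3 ≤ Mx * D := Nat.mul_le_mul_left _ (by omega)
    omega
  obtain ⟨τ, hτ⟩ : ∃ τ, τ = t ^ k := ⟨_, rfl⟩
  obtain ⟨T, hT⟩ : ∃ T, T = t ^ G := ⟨_, rfl⟩
  obtain ⟨S, hS⟩ : ∃ S, S = s * t ^ (2 * k) := ⟨_, rfl⟩
  have hS' : S = s * τ ^ 2 := by rw [hS, hτ, ← pow_mul, mul_comm k 2]
  have hτ1 : 1 ≤ τ := by rw [hτ]; exact Nat.one_le_pow _ _ ht1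
  have hcτ : c < τ := by
    calc c ≤ k := hkc
      _ < 2 ^ k := Nat.lt_two_pow_self
      _ ≤ t ^ k := Nat.pow_le_pow_left ht k
      _ = τ := hτ.symm
  have hTτ : c * τ ^ (4 * N + 2) < T := by
    calc c * τ ^ (4 * N + 2) < τ * τ ^ (4 * N + 2) :=
          Nat.mul_lt_mul_of_pos_right hcτ (by positivity)
      _ = τ ^ D := by rw [hD, ← pow_succ']
      _ = t ^ (k * D) := by rw [hτ, ← pow_mul]
      _ ≤ t ^ G := Nat.pow_le_pow_right ht1 hkG
      _ = T := hT.symm
  have hTz : ((T : ℕ) : ℤ) = (t : ℤ) ^ G := by rw [hT]; push_cast; ring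
  -- powers of `τ`
  have hpow : ∀ e, e ≤ 4 * N + 2 → τ ^ e ≤ τ ^ (4 * N + 2) := fun e he =>
    Nat.pow_le_pow_right hτ1 he
  obtain ⟨Θ, hΘ⟩ : ∃ Θ, Θ = τ ^ (4 * N + 2) := ⟨_, rfl⟩
  rw [← hΘ] at hTτ hpow
  have hΘ1 : 1 ≤ Θ := by rw [hΘ]; exact Nat.one_le_pow _ _ hτ1
  have hcT : 2 * ((A + B + C) * (s + 1) ^ N) * Θ + 2 * s * (1 + r) * Θ + q * Θ + s * Θ + 4 * Θ <
      T := by
    calc _ = c * Θ := by rw [hc]; ring
      _ < T := hTτ
  have hST : 2 * S + 2 ≤ T := by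
    have h1 : S ≤ s * Θ := by rw [hS']; exact Nat.mul_le_mul_left s (hpow 2 (by omega))
    have h2 : 2 * s * (1 + r) * Θ = 2 * (s * Θ) + 2 * (s * Θ) * r := by ring
    omega
  -- the factor with the largest exponent
  have hlarge : T ≤ 2 * (τ * v1) := by
    obtain ⟨h1, h2, h3⟩ := hR v1 hv1
    rw [hT, hτ]
    exact large p a (R v1) (R' v1) (fun i hi => hak i (hEmem v1 hv1 i hi)) ht1 h2 h3 hMx1 hpM h1
      (by rw [← hS, ← hT]; exact hST)
  -- the new products
  have hclose' : ∀ {w : List ℕ} {β ς : ℕ}, IsProduct M β ς w → (∀ v ∈ w, v ∈ x ++ y ++ z) →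
      Close T S (w.map (τ * ·)) := by
    intro w β ς hw hsub
    refine ⟨?_, ?_, ?_⟩
    · intro h0
      rw [List.map_eq_nil_iff] at h0
      have := hw.2.1
      rw [h0] at this
      simp at this
    · intro v' hv'
      obtain ⟨v, hv, rfl⟩ := List.mem_map.1 hv'
      refine ⟨Nat.mul_pos hτ1 (hw.pos v hv), ?_⟩
      obtain ⟨h1, h2, -⟩ := hR v (hsub v hv)
      obtain ⟨F, f1, f2, -⟩ := lift_rep p a (R v) (R' v)
        (fun i hi => hak i (hEmem v (hsub v hv) i hi)) ht1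
      refine ⟨F, sm_mono f1 ?_, ?_⟩
      · rw [hS]; exact Nat.mul_le_mul_right _ h2
      · rw [hTz, f2, h1, hτ]; push_cast; ring
    · intro v' hv' u' hu'
      obtain ⟨v, hv, rfl⟩ := List.mem_map.1 hv'
      obtain ⟨u, hu, rfl⟩ := List.mem_map.1 hu'
      have h1 : 2 * (S : ℝ) * (1 + √M) < T := by
        have h2 : (2 * S * (1 + r) : ℕ) < T := by
          have h3 : S ≤ s * Θ := by rw [hS']; exact Nat.mul_le_mul_left s (hpow 2 (by omega))
          have h4 : 2 * S * (1 + r) ≤ 2 * (s * Θ) * (1 + r) := by gcongr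
          have h5 : 2 * (s * Θ) * (1 + r) = 2 * s * (1 + r) * Θ := by ring
          omega
        calc 2 * (S : ℝ) * (1 + √M) ≤ 2 * (S : ℝ) * (1 + r) := by gcongr
          _ = ((2 * S * (1 + r) : ℕ) : ℝ) := by push_cast; ring
          _ < T := by exact_mod_cast h2
      have h2 := hw.near h1 v hv u hu
      calc 2 * S * (τ * u) = τ * (2 * S * u) := by ring
        _ < τ * (T * v) := Nat.mul_lt_mul_of_pos_left h2 hτ1
        _ = T * (τ * v) := by ring
  have hXpos : ∀ {w : List ℕ} {β ς : ℕ}, IsProduct M β ς w → 0 < w.prod := fun hw =>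
    List.prod_pos fun v hv => hw.pos v hv
  have hX := hXpos hx
  have hY := hXpos hy
  have main' := main (A := A * τ ^ (3 * N - x.length)) (B := B * τ ^ (3 * N - y.length))
    (C := C * τ ^ (3 * N - z.length)) (Nat.mul_pos hA (by positivity))
    (Nat.mul_pos hB (by positivity)) (Nat.mul_pos hC (by positivity))
    (hclose' hx fun v hv => by simp [hv]) (hclose' hy fun v hv => by simp [hv])
    (hclose' hz fun v hv => by simp [hv]) (by
      rw [List.length_map, List.length_map, List.length_map]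
      have key : ∀ {E' n : ℕ}, n ≤ N → E' * τ ^ (3 * N - n) * S ^ n ≤
          E' * (s + 1) ^ N * Θ := by
        intro E' n hn
        rw [hS', mul_pow, ← pow_mul]
        calc E' * τ ^ (3 * N - n) * (s ^ n * τ ^ (2 * n))
            = E' * s ^ n * (τ ^ (3 * N - n) * τ ^ (2 * n)) := by ring
          _ = E' * s ^ n * τ ^ (3 * N - n + 2 * n) := by rw [pow_add]
          _ ≤ E' * (s + 1) ^ N * Θ := by
            apply Nat.mul_le_mul
            · apply Nat.mul_le_mul_left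
              exact (Nat.pow_le_pow_left (Nat.le_succ s) n).trans
                (Nat.pow_le_pow_right (Nat.succ_pos s) hn)
            · exact hpow _ (by omega)
      have k1 := key (E' := A) lx
      have k2 := key (E' := B) ly
      have k3 := key (E' := C) lz
      have k4 : 2 * ((A + B + C) * (s + 1) ^ N) * Θ = 2 * (A * (s + 1) ^ N * Θ +
        B * (s + 1) ^ N * Θ + C * (s + 1) ^ N * Θ) := by ring
      omega) (by
      rw [prod_map_mul, prod_map_mul]
      obtain ⟨g, hgg⟩ : ∃ g, g = Nat.gcd x.prod y.prod := ⟨_, rfl⟩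
      obtain ⟨g', hgg'⟩ : ∃ g', g' = Nat.gcd (τ ^ x.length * x.prod) (τ ^ y.length * y.prod) :=
        ⟨_, rfl⟩
      rw [← hgg'] 
      rw [← hgg] at hg
      have g1 : g' ≤ τ ^ x.length * τ ^ y.length * g := by
        rw [hgg', hgg]
        exact gcd_mul_le _ _ _ _ hX (by positivity) (by positivity)
      have g2 : g ≤ q * rad g := by
        have : (g : ℝ) ≤ q * rad g := hg.trans (by gcongr)
        exact_mod_cast this
      have g3 : g ∣ g' := by
        rw [hgg, hgg']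
        exact Nat.dvd_gcd ((Nat.gcd_dvd_left _ _).trans (Dvd.intro_left _ rfl))
          ((Nat.gcd_dvd_right _ _).trans (Dvd.intro_left _ rfl))
      have g4 : rad g ≤ rad g' := rad_mono g3 (by
        rw [hgg']
        exact (Nat.gcd_pos_of_pos_left _ (Nat.mul_pos (by positivity) hX)).ne')
      have g5 : τ ^ x.length * τ ^ y.length ≤ Θ := by
        rw [← pow_add]
        exact hpow _ (by omega)
      have g6 : g' ≤ Θ * (q * rad g') := by
        calc g' ≤ τ ^ x.length * τ ^ y.length * g := g1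
          _ ≤ Θ * (q * rad g') := Nat.mul_le_mul g5 (g2.trans (Nat.mul_le_mul_left q g4))
      have g7 : S + 1 + q * Θ < T := by
        have h1 : S ≤ s * Θ := by rw [hS']; exact Nat.mul_le_mul_left s (hpow 2 (by omega))
        omega
      calc g' + (S + 1) * rad g' ≤ Θ * (q * rad g') + (S + 1) * rad g' := by omega
        _ = (S + 1 + q * Θ) * rad g' := by ring
        _ < T * rad g' := Nat.mul_lt_mul_of_pos_right g7 (rad_pos g')) (by
      rw [prod_map_mul, prod_map_mul, prod_map_mul]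
      have key : ∀ {E' n V : ℕ}, n ≤ N → E' * τ ^ (3 * N - n) * (τ ^ n * V) =
          τ ^ (3 * N) * (E' * V) := by
        intro E' n V hn
        have : τ ^ (3 * N) = τ ^ (3 * N - n) * τ ^ n := by
          rw [← pow_add]
          congr 1
          omega
        rw [this]
        ring
      rw [key lx, key ly, key lz, ← h]
      ring) (by
      refine ⟨τ * v1, ?_, by omega⟩
      rw [← List.map_append, ← List.map_append]
      exact List.mem_map.2 ⟨v1, hv1, rfl⟩)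
  have q1 := quot_map_le (S := S) (τ := τ) hx
  have q2 := quot_map_le (S := S) (τ := τ) hy
  have q3 := quot_map_le (S := S) (τ := τ) hz
  linarith

/-- a large base -/
theorem large_base {A B C N s t q r : ℕ} {M Q : ℝ} (hA : 0 < A) (hB : 0 < B) (hC : 0 < C)
    (hr : √M ≤ r) (hq : Q ≤ q) (ht : cst A B C N s q r ≤ t) {x y z : List ℕ}
    {b b' b'' σ σ' σ'' : ℕ} (hx : IsProduct M b σ x) (hy : IsProduct M b' σ' y)
    (hz : IsProduct M b'' σ'' z) (hs : ∀ v ∈ x ++ y ++ z, IsSparse t s v) (lx : x.length ≤ N)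
    (ly : y.length ≤ N) (lz : z.length ≤ N) (h : A * x.prod + B * y.prod = C * z.prod)
    (hg : (Nat.gcd x.prod y.prod : ℝ) ≤ Q * rad (Nat.gcd x.prod y.prod))
    (hF : (σ + 1 : ℝ) / x.length + (σ' + 1 : ℝ) / y.length + (σ'' + 1 : ℝ) / z.length ≤ 1) :
    ∀ v ∈ x ++ y ++ z, v ≤ s := by
  have hc : 2 * ((A + B + C) * (s + 1) ^ N) + 2 * s * (1 + r) + q + s + 4 ≤ t := ht
  have hp : ∀ {E n : ℕ}, n ≤ N → E * s ^ n ≤ E * (s + 1) ^ N := fun {E n} hn =>
    Nat.mul_le_mul_left E ((Nat.pow_le_pow_left (Nat.le_succ s) n).trans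
      (Nat.pow_le_pow_right (Nat.succ_pos s) hn))
  have hpx := hp (E := A) lx
  have hpy := hp (E := B) ly
  have hpz := hp (E := C) lz
  have hsum : (A + B + C) * (s + 1) ^ N = A * (s + 1) ^ N + B * (s + 1) ^ N +
    C * (s + 1) ^ N := by ring
  have h1 : 2 * (s : ℝ) * (1 + √M) < t := by
    have h2 : (2 * s * (1 + r) : ℕ) < t := by omega
    calc 2 * (s : ℝ) * (1 + √M) ≤ 2 * (s : ℝ) * (1 + r) := by gcongr
      _ = ((2 * s * (1 + r) : ℕ) : ℝ) := by push_cast; ring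
      _ < t := by exact_mod_cast h2
  have h2 : Q + s + 1 < t := by
    have h3 : ((q + s + 1 : ℕ) : ℝ) < t := by
      exact_mod_cast (by omega : q + s + 1 < t)
    push_cast at h3
    linarith
  exact trivial_of hA hB hC h1 h2 hx hy hz hs (by omega) h hg hF

end Pool.Agent.J4H84.DS
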