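import Pool.Agent.J4H84.DS.Thm
import Pool.Agent.J4H84.DS.Defs2

/-!
`A X + B Y = C Z` in products whose factors have few digits in one base, with bounds that are
polynomial in the size of the digits: proofs.
-/

namespace Pool.Agent.J4H84.DS

open Polynomial Pool.Agent.J4H90.HL Pool.Agent.J4H90.PS

/-- a representation without vanishing subsums, with the same exponents -/
theorem exists_min2 (t : ℕ) (L L' : Multiset ℕ) : ∃ R R' : Multiset ℕ,
    pw t R - pw t R' = pw t L - pw t L' ∧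
    Multiset.card R + Multiset.card R' ≤ Multiset.card L + Multiset.card L' ∧
    (∀ i ∈ R + R', i ∈ L + L') ∧
    ∀ (p : ℕ → Prop) [DecidablePred p], (∃ i ∈ R + R', p i) →
      pw t (R.filter p) - pw t (R'.filter p) ≠ 0 := by
  classical
  obtain ⟨n, hn⟩ : ∃ n, n = Multiset.card L + Multiset.card L' := ⟨_, rfl⟩
  induction n using Nat.strong_induction_on generalizing L L' with
  | _ n ih =>
    by_cases h : ∀ (p : ℕ → Prop) [DecidablePred p], (∃ i ∈ L + L', p i) →
      pw t (L.filter p) - pw t (L'.filter p) ≠ 0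
    · exact ⟨L, L', rfl, le_rfl, fun _ h => h, h⟩
    · push Not at h
      obtain ⟨p, hp, ⟨i, hi, hpi⟩, h0⟩ := h
      have e1 := pw_filter t L p
      have e2 := pw_filter t L' p
      have c1 : Multiset.card (L.filter p) + Multiset.card (L.filter fun i => ¬ p i) =
          Multiset.card L := by rw [← Multiset.card_add, Multiset.filter_add_not]
      have c2 : Multiset.card (L'.filter p) + Multiset.card (L'.filter fun i => ¬ p i) =
          Multiset.card L' := by rw [← Multiset.card_add, Multiset.filter_add_not]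
      have c3 : 0 < Multiset.card (L.filter p) + Multiset.card (L'.filter p) := by
        rw [← Multiset.card_add, ← Multiset.filter_add, Multiset.card_pos_iff_exists_mem]
        exact ⟨i, Multiset.mem_filter.2 ⟨hi, hpi⟩⟩
      obtain ⟨R, R', r1, r2, r3, r4⟩ := ih _ (by omega) (L.filter fun i => ¬ p i)
        (L'.filter fun i => ¬ p i) rfl
      refine ⟨R, R', ?_, by omega, fun i hi => ?_, r4⟩
      · rw [r1]
        linarith
      · have h1 := r3 i hi
        rw [← Multiset.filter_add] at h1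
        exact Multiset.mem_of_mem_filter h1

/-- `v` is a difference of sums of powers of `t`, with at most `s` terms and `r` exponents -/
def Rep (t r s : ℕ) (v : ℤ) : Prop := ∃ L L' : Multiset ℕ, pw t L - pw t L' = v ∧
  Multiset.card L + Multiset.card L' ≤ s ∧ (L + L').toFinset.card ≤ r

theorem pw_replicate (t n i : ℕ) : pw t (Multiset.replicate n i) = n * (t : ℤ) ^ i := by
  simp [pw]

theorem pw_sum {α : Type*} (t : ℕ) (S : Finset α) (f : α → Multiset ℕ) :
    pw t (∑ j ∈ S, f j) = ∑ j ∈ S, pw t (f j) := by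
  classical
  induction S using Finset.induction_on with
  | empty => simp [pw]
  | insert i S hi ih => rw [Finset.sum_insert hi, Finset.sum_insert hi, pw_add, ih]

theorem FewDigits.rep {t r U : ℕ} {v : ℤ} (h : FewDigits t r U v) : Rep t r (r * U) v := by
  classical
  obtain ⟨m, u, hu, hv⟩ := h
  refine ⟨∑ j, Multiset.replicate (u j).toNat (m j),
    ∑ j, Multiset.replicate (-u j).toNat (m j), ?_, ?_, ?_⟩
  · rw [pw_sum, pw_sum, ← Finset.sum_sub_distrib, hv]
    refine Finset.sum_congr rfl fun j _ => ?_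
    rw [pw_replicate, pw_replicate, ← sub_mul]
    congr 1
    omega
  · rw [← Multiset.card_add, ← Finset.sum_add_distrib, Multiset.card_sum]
    refine (Finset.sum_le_card_nsmul _ _ U fun j _ => ?_).trans (by simp)
    rw [Multiset.card_add, Multiset.card_replicate, Multiset.card_replicate]
    obtain ⟨h1, h2⟩ := abs_le.1 (hu j)
    omega
  · have hsub : (∑ j, Multiset.replicate (u j).toNat (m j) +
        ∑ j, Multiset.replicate (-u j).toNat (m j)).toFinset ⊆ Finset.univ.image m := by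
      intro i hi
      rw [Multiset.mem_toFinset, Multiset.mem_add, Multiset.mem_sum, Multiset.mem_sum] at hi
      rcases hi with ⟨j, -, hj⟩ | ⟨j, -, hj⟩
      · exact Finset.mem_image.2 ⟨j, Finset.mem_univ _, (Multiset.eq_of_mem_replicate hj).symm⟩
      · exact Finset.mem_image.2 ⟨j, Finset.mem_univ _, (Multiset.eq_of_mem_replicate hj).symm⟩
    refine (Finset.card_le_card hsub).trans (Finset.card_image_le.trans ?_)
    rw [Finset.card_univ, Fintype.card_fin]

theorem Rep.poly {t r s : ℕ} {v : ℤ} (h : Rep t r s v) (ht : 1 ≤ t) :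
    ∃ F : ℤ[X], Sm s F ∧ F.eval (t : ℤ) = v := by
  obtain ⟨L, L', h1, h2, -⟩ := h
  obtain ⟨F, f1, f2, -⟩ := lift_rep (t := t) (h := 0) (G := 1) id (fun _ => 0) L L'
    (fun i _ => ⟨le_rfl, by simp⟩) ht
  refine ⟨F, sm_mono f1 (by simpa using h2), ?_⟩
  rw [pow_one, pow_zero, one_mul, h1] at f2
  exact f2

/-- the statement for `Q1` -/
theorem trivial_of2 {A B C s t : ℕ} {M Q : ℝ} (hA : 0 < A) (hB : 0 < B) (hC : 0 < C)
    (hM : 2 * s * (1 + √M) < t) (hQ : Q + s + 1 < t) {x y z : List ℕ}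
    {b b' b'' σ σ' σ'' : ℕ} (hx : IsProduct M b σ x) (hy : IsProduct M b' σ' y)
    (hz : IsProduct M b'' σ'' z) (hs : ∀ v ∈ x ++ y ++ z, ∃ F : ℤ[X], Sm s F ∧ F.eval (t : ℤ) = v)
    (ht : 2 * (A * s ^ x.length + B * s ^ y.length + C * s ^ z.length) + 2 ≤ t)
    (h : A * x.prod + B * y.prod = C * z.prod)
    (hg : (Nat.gcd x.prod y.prod : ℝ) ≤ Q * rad (Nat.gcd x.prod y.prod))
    (hF : (σ + 1 : ℝ) / x.length + (σ' + 1 : ℝ) / y.length + (σ'' + 1 : ℝ) / z.length ≤ 1) :
    ∀ v ∈ x ++ y ++ z, v ≤ s := by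
  by_contra hne
  push Not at hne
  have h1 : 0 < rad (Nat.gcd x.prod y.prod) :=
    Finset.prod_pos fun p hp => (Nat.prime_of_mem_primeFactors hp).pos
  have hcl : ∀ {w : List ℕ} {β ς : ℕ}, IsProduct M β ς w → (∀ v ∈ w, v ∈ x ++ y ++ z) →
      Close t s w := fun hw hsub =>
    ⟨List.ne_nil_of_mem hw.2.1, fun v hv => ⟨hw.pos v hv, hs v (hsub v hv)⟩, hw.near hM⟩
  have h2 := main hA hB hC (hcl hx fun v hv => by simp [hv])
    (hcl hy fun v hv => by simp [hv]) (hcl hz fun v hv => by simp [hv])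
    ht (by
      have h3 : (0 : ℝ) < rad (Nat.gcd x.prod y.prod) := by exact_mod_cast h1
      have h4 : (Nat.gcd x.prod y.prod : ℝ) + ((s : ℝ) + 1) * rad (Nat.gcd x.prod y.prod) <
          t * rad (Nat.gcd x.prod y.prod) := by
        calc (Nat.gcd x.prod y.prod : ℝ) + ((s : ℝ) + 1) * rad (Nat.gcd x.prod y.prod)
            ≤ Q * rad (Nat.gcd x.prod y.prod) +
              ((s : ℝ) + 1) * rad (Nat.gcd x.prod y.prod) := by gcongr
          _ = (Q + s + 1) * rad (Nat.gcd x.prod y.prod) := by ring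
          _ < t * rad (Nat.gcd x.prod y.prod) := by gcongr
      exact_mod_cast h4) h hne
  have h3 := quot_le (s := s) hx
  have h4 := quot_le (s := s) hy
  have h5 := quot_le (s := s) hz
  linarith

/-- a large base -/
theorem large_base2 {A B C N s t q r : ℕ} {M Q : ℝ} (hA : 0 < A) (hB : 0 < B) (hC : 0 < C)
    (hr : √M ≤ r) (hq : Q ≤ q) (ht : cst A B C N s q r ≤ t) {x y z : List ℕ}
    {b b' b'' σ σ' σ'' : ℕ} (hx : IsProduct M b σ x) (hy : IsProduct M b' σ' y)
    (hz : IsProduct M b'' σ'' z) (hs : ∀ v ∈ x ++ y ++ z, ∃ F : ℤ[X], Sm s F ∧ F.eval (t : ℤ) = v) (lx : x.length ≤ N)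
    (ly : y.length ≤ N) (lz : z.length ≤ N) (h : A * x.prod + B * y.prod = C * z.prod)
    (hg : (Nat.gcd x.prod y.prod : ℝ) ≤ Q * rad (Nat.gcd x.prod y.prod))
    (hF : (σ + 1 : ℝ) / x.length + (σ' + 1 : ℝ) / y.length + (σ'' + 1 : ℝ) / z.length ≤ 1) :
    ∀ v ∈ x ++ y ++ z, v ≤ s := by
  have hc : 2 * ((A + B + C) * (s + 1) ^ N) + 2 * s * (1 + r) + q + s + 4 ≤ t := ht
  have hp : ∀ {E n : ℕ}, n ≤ N → E * s ^ n ≤ E * (s + 1) ^ N := fun {E n} hn =>
    Nat.mul_le_mul_left E ((Nat.pow_le_pow_left (Nat.le_succ s) n).trans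
      (Nat.pow_le_pow_right (Nat.succ_pos s) hn))
  have hpx := hp (E := A) lx
  have hpy := hp (E := B) ly
  have hpz := hp (E := C) lz
  have hsum : (A + B + C) * (s + 1) ^ N = A * (s + 1) ^ N + B * (s + 1) ^ N +
    C * (s + 1) ^ N := by ring
  have h1 : 2 * (s : ℝ) * (1 + √M) < t := by
    have h2 : (2 * s * (1 + r) : ℕ) < t := by omega
    calc 2 * (s : ℝ) * (1 + √M) ≤ 2 * (s : ℝ) * (1 + r) := by gcongr
      _ = ((2 * s * (1 + r) : ℕ) : ℝ) := by push_cast; ring
      _ < t := by exact_mod_cast h2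
  have h2 : Q + s + 1 < t := by
    have h3 : ((q + s + 1 : ℕ) : ℝ) < t := by
      exact_mod_cast (by omega : q + s + 1 < t)
    push_cast at h3
    linarith
  exact trivial_of2 hA hB hC h1 h2 hx hy hz hs (by omega) h hg hF

/-- one base -/
theorem fixed_base2 {A B C N s t q r k' R0 : ℕ} {M Q : ℝ} (hA : 0 < A) (hB : 0 < B) (hC : 0 < C)
    (ht : 2 ≤ t) (hr : √M ≤ r) (hq : Q ≤ q) {x y z : List ℕ} {b b' b'' σ σ' σ'' : ℕ}
    (hx : IsProduct M b σ x) (hy : IsProduct M b' σ' y) (hz : IsProduct M b'' σ'' z)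
    (htc : t ≤ cst A B C N s q r)
    (hs : ∀ v ∈ x ++ y ++ z, Rep t R0 s v) (lx : x.length ≤ N) (ly : y.length ≤ N)
    (lz : z.length ≤ N) (hk' : (x ++ y ++ z).toFinset.card ≤ k')
    (h : A * x.prod + B * y.prod = C * z.prod)
    (hg : (Nat.gcd x.prod y.prod : ℝ) ≤ Q * rad (Nat.gcd x.prod y.prod))
    (hF : (σ + 1 : ℝ) / x.length + (σ' + 1 : ℝ) / y.length + (σ'' + 1 : ℝ) / z.length ≤ 1) :
    ∀ v ∈ x ++ y ++ z, v ≤ s * cst A B C N s q r ^ exq N k' R0 := by
  classical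
  obtain ⟨D, hD⟩ : ∃ D, D = 4 * N + 3 := ⟨_, rfl⟩
  obtain ⟨J, hJ⟩ : ∃ J, J = (4 * D) ^ (k' * R0) := ⟨_, rfl⟩
  obtain ⟨B0, hB0'⟩ : ∃ B0, B0 = J * (4 * J * D + 3) := ⟨_, rfl⟩
  have hB0 := dirichlet (K := k' * R0) (D := D) (by omega) hJ
  rw [← hB0'] at hB0
  obtain ⟨c, hc'⟩ : ∃ c, c = cst A B C N s q r := ⟨_, rfl⟩
  have hc : c = 2 * ((A + B + C) * (s + 1) ^ N) + 2 * s * (1 + r) + q + s + 4 := hc'
  rw [← hc'] at htc ⊢
  have ht1 : 1 ≤ t := by omega
  obtain ⟨e, he1, he2⟩ : ∃ e, c < t ^ e ∧ t ^ e ≤ t * c := by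
    refine ⟨Nat.log t c + 1, Nat.lt_pow_succ_log_self (by omega) c, ?_⟩
    rw [pow_succ, mul_comm]
    exact Nat.mul_le_mul_left t (Nat.pow_log_le_self t (by omega))
  obtain ⟨M0, hM0⟩ : ∃ M0, M0 = B0 + B0 * (D * e) := ⟨_, rfl⟩
  have htM0 : t ^ M0 ≤ c ^ exq N k' R0 := by
    calc t ^ M0 = (t * (t ^ e) ^ D) ^ B0 := by
          rw [hM0, ← pow_mul, mul_comm e D, ← pow_succ', ← pow_mul]
          congr 1
          ring
      _ ≤ (c * (c * c) ^ D) ^ B0 := by
          apply Nat.pow_le_pow_left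
          exact Nat.mul_le_mul htc (Nat.pow_le_pow_left (he2.trans (Nat.mul_le_mul_right c htc)) D)
      _ = c ^ exq N k' R0 := by
          rw [← pow_two, ← pow_mul, ← pow_succ', ← pow_mul, exq, hB0', hJ, hD]
  by_contra hcon
  push Not at hcon
  obtain ⟨v0, hv0, hbig'⟩ := hcon
  have hbig : s * t ^ M0 < v0 := (Nat.mul_le_mul_left s htM0).trans_lt hbig'
  -- representations
  have hrep : ∀ v : ℕ, ∃ R R' : Multiset ℕ, v ∈ x ++ y ++ z → pw t R - pw t R' = v ∧
      Multiset.card R + Multiset.card R' ≤ s ∧ (R + R').toFinset.card ≤ R0 ∧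
      ∀ (p : ℕ → Prop) [DecidablePred p], (∃ i ∈ R + R', p i) →
        pw t (R.filter p) - pw t (R'.filter p) ≠ 0 := by
    intro v
    by_cases hv : v ∈ x ++ y ++ z
    · obtain ⟨L, L', h1, h2, h3⟩ := hs v hv
      obtain ⟨R, R', r1, r2, r3, r4⟩ := exists_min2 t L L'
      refine ⟨R, R', fun _ => ⟨r1.trans h1, r2.trans h2, ?_, r4⟩⟩
      refine le_trans (Finset.card_le_card fun i hi => ?_) h3
      exact Multiset.mem_toFinset.2 (r3 i (Multiset.mem_toFinset.1 hi))
    · exact ⟨0, 0, fun h => absurd h hv⟩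
  choose R R' hR using hrep
  obtain ⟨E, hE⟩ : ∃ E : Finset ℕ, E = (x ++ y ++ z).toFinset.biUnion
      fun v => (R v + R' v).toFinset := ⟨_, rfl⟩
  have hEmem : ∀ v ∈ x ++ y ++ z, ∀ i ∈ R v + R' v, i ∈ E := by
    intro v hv i hi
    rw [hE, Finset.mem_biUnion]
    exact ⟨v, List.mem_toFinset.2 hv, Multiset.mem_toFinset.2 hi⟩
  have hEcard : E.card ≤ k' * R0 := by
    rw [hE]
    exact (Finset.card_biUnion_le_card_mul _ _ R0 fun v hv =>
      (hR v (List.mem_toFinset.1 hv)).2.2.1).trans (Nat.mul_le_mul_right R0 hk')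
  -- a large exponent
  obtain ⟨i0, hi0, hi0M⟩ : ∃ i ∈ R v0 + R' v0, M0 < i := by
    by_contra hno
    push Not at hno
    obtain ⟨h1, h2, -⟩ := hR v0 hv0
    have h3 := (pw_le ht1 (R v0) (m := M0) fun i hi => hno i (Multiset.mem_add.2 (Or.inl hi))).1
    have h4 := (pw_le ht1 (R' v0) (m := M0) fun i hi => hno i (Multiset.mem_add.2 (Or.inr hi))).2
    have h5 : (Multiset.card (R v0) : ℤ) * (t : ℤ) ^ M0 ≤ s * (t : ℤ) ^ M0 := by
      apply mul_le_mul_of_nonneg_right _ (by positivity)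
      exact_mod_cast (by omega : Multiset.card (R v0) ≤ s)
    have h6 : ((s * t ^ M0 : ℕ) : ℤ) < v0 := by exact_mod_cast hbig
    push_cast at h6
    linarith
  obtain ⟨Mx, hMx, hmax⟩ := Finset.exists_max_image E id ⟨i0, hEmem v0 hv0 i0 hi0⟩
  simp only [id] at hmax
  obtain ⟨v1, hv1, hMx1⟩ : ∃ v ∈ x ++ y ++ z, Mx ∈ R v + R' v := by
    rw [hE, Finset.mem_biUnion] at hMx
    obtain ⟨v, hv, h1⟩ := hMx
    exact ⟨v, List.mem_toFinset.1 hv, Multiset.mem_toFinset.1 h1⟩
  have hMxM0 : M0 < Mx := hi0M.trans_le (hmax i0 (hEmem v0 hv0 i0 hi0))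
  obtain ⟨G, p, hG1, hGM, hMG, hclose⟩ := hB0 E Mx hEcard hmax (by omega)
  obtain ⟨k, hk⟩ : ∃ k, k = G / D := ⟨_, rfl⟩
  have hGc : D * e < G := by
    have h1 : B0 * (D * e) < B0 * G := by omega
    exact lt_of_mul_lt_mul_left h1 (Nat.zero_le _)
  have hkc : e ≤ k := by
    rw [hk, Nat.le_div_iff_mul_le (by omega), mul_comm]
    exact hGc.le
  have hkG : k * D ≤ G := by rw [hk]; exact Nat.div_mul_le_self _ _
  obtain ⟨a, ha⟩ : ∃ a : ℕ → ℕ, a = fun i => i + k - p i * G := ⟨_, rfl⟩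
  have hak : ∀ i ∈ E, a i ≤ 2 * k ∧ i + k = a i + p i * G := by
    intro i hi
    have h1 := hclose i hi
    have h2 : ((i : ℤ) - p i * G).natAbs ≤ k := by
      rw [hk, Nat.le_div_iff_mul_le (by omega)]
      rw [← Int.natCast_natAbs] at h1
      exact_mod_cast h1
    have h3 : ((p i * G : ℕ) : ℤ) = (p i : ℤ) * G := by push_cast; ring
    rw [← h3] at h2
    rw [ha]
    beta_reduce
    generalize p i * G = w at h2 ⊢
    omega
  have hpM : 1 ≤ p Mx := by
    by_contra h0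
    have h1 := hclose Mx hMx
    have h2 : p Mx = 0 := by omega
    rw [h2, Nat.cast_zero, zero_mul, sub_zero, Nat.abs_cast] at h1
    have h3 : Mx * D ≤ G := by exact_mod_cast h1
    have h4 : Mx * 3 ≤ Mx * D := Nat.mul_le_mul_left _ (by omega)
    omega
  obtain ⟨τ, hτ⟩ : ∃ τ, τ = t ^ k := ⟨_, rfl⟩
  obtain ⟨T, hT⟩ : ∃ T, T = t ^ G := ⟨_, rfl⟩
  obtain ⟨S, hS⟩ : ∃ S, S = s * t ^ (2 * k) := ⟨_, rfl⟩
  have hS' : S = s * τ ^ 2 := by rw [hS, hτ, ← pow_mul, mul_comm k 2]
  have hτ1 : 1 ≤ τ := by rw [hτ]; exact Nat.one_le_pow _ _ ht1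
  have hcτ : c < τ := by
    calc c < t ^ e := he1
      _ ≤ t ^ k := Nat.pow_le_pow_right ht1 hkc
      _ = τ := hτ.symm
  have hTτ : c * τ ^ (4 * N + 2) < T := by
    calc c * τ ^ (4 * N + 2) < τ * τ ^ (4 * N + 2) :=
          Nat.mul_lt_mul_of_pos_right hcτ (by positivity)
      _ = τ ^ D := by rw [hD, ← pow_succ']
      _ = t ^ (k * D) := by rw [hτ, ← pow_mul]
      _ ≤ t ^ G := Nat.pow_le_pow_right ht1 hkG
      _ = T := hT.symm
  have hTz : ((T : ℕ) : ℤ) = (t : ℤ) ^ G := by rw [hT]; push_cast; ring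
  -- powers of `τ`
  have hpow : ∀ e, e ≤ 4 * N + 2 → τ ^ e ≤ τ ^ (4 * N + 2) := fun e he =>
    Nat.pow_le_pow_right hτ1 he
  obtain ⟨Θ, hΘ⟩ : ∃ Θ, Θ = τ ^ (4 * N + 2) := ⟨_, rfl⟩
  rw [← hΘ] at hTτ hpow
  have hΘ1 : 1 ≤ Θ := by rw [hΘ]; exact Nat.one_le_pow _ _ hτ1
  have hcT : 2 * ((A + B + C) * (s + 1) ^ N) * Θ + 2 * s * (1 + r) * Θ + q * Θ + s * Θ + 4 * Θ <
      T := by
    calc _ = c * Θ := by rw [hc]; ring
      _ < T := hTτ
  have hST : 2 * S + 2 ≤ T := by
    have h1 : S ≤ s * Θ := by rw [hS']; exact Nat.mul_le_mul_left s (hpow 2 (by omega))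
    have h2 : 2 * s * (1 + r) * Θ = 2 * (s * Θ) + 2 * (s * Θ) * r := by ring
    omega
  -- the factor with the largest exponent
  have hlarge : T ≤ 2 * (τ * v1) := by
    obtain ⟨h1, h2, -, h3⟩ := hR v1 hv1
    rw [hT, hτ]
    exact large p a (R v1) (R' v1) (fun i hi => hak i (hEmem v1 hv1 i hi)) ht1 h2 h3 hMx1 hpM h1
      (by rw [← hS, ← hT]; exact hST)
  -- the new products
  have hclose' : ∀ {w : List ℕ} {β ς : ℕ}, IsProduct M β ς w → (∀ v ∈ w, v ∈ x ++ y ++ z) →
      Close T S (w.map (τ * ·)) := by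
    intro w β ς hw hsub
    refine ⟨?_, ?_, ?_⟩
    · intro h0
      rw [List.map_eq_nil_iff] at h0
      have := hw.2.1
      rw [h0] at this
      simp at this
    · intro v' hv'
      obtain ⟨v, hv, rfl⟩ := List.mem_map.1 hv'
      refine ⟨Nat.mul_pos hτ1 (hw.pos v hv), ?_⟩
      obtain ⟨h1, h2, -⟩ := hR v (hsub v hv)
      obtain ⟨F, f1, f2, -⟩ := lift_rep p a (R v) (R' v)
        (fun i hi => hak i (hEmem v (hsub v hv) i hi)) ht1
      refine ⟨F, sm_mono f1 ?_, ?_⟩
      · rw [hS]; exact Nat.mul_le_mul_right _ h2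
      · rw [hTz, f2, h1, hτ]; push_cast; ring
    · intro v' hv' u' hu'
      obtain ⟨v, hv, rfl⟩ := List.mem_map.1 hv'
      obtain ⟨u, hu, rfl⟩ := List.mem_map.1 hu'
      have h1 : 2 * (S : ℝ) * (1 + √M) < T := by
        have h2 : (2 * S * (1 + r) : ℕ) < T := by
          have h3 : S ≤ s * Θ := by rw [hS']; exact Nat.mul_le_mul_left s (hpow 2 (by omega))
          have h4 : 2 * S * (1 + r) ≤ 2 * (s * Θ) * (1 + r) := by gcongr
          have h5 : 2 * (s * Θ) * (1 + r) = 2 * s * (1 + r) * Θ := by ring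
          omega
        calc 2 * (S : ℝ) * (1 + √M) ≤ 2 * (S : ℝ) * (1 + r) := by gcongr
          _ = ((2 * S * (1 + r) : ℕ) : ℝ) := by push_cast; ring
          _ < T := by exact_mod_cast h2
      have h2 := hw.near h1 v hv u hu
      calc 2 * S * (τ * u) = τ * (2 * S * u) := by ring
        _ < τ * (T * v) := Nat.mul_lt_mul_of_pos_left h2 hτ1
        _ = T * (τ * v) := by ring
  have hXpos : ∀ {w : List ℕ} {β ς : ℕ}, IsProduct M β ς w → 0 < w.prod := fun hw =>
    List.prod_pos fun v hv => hw.pos v hv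
  have hX := hXpos hx
  have hY := hXpos hy
  have main' := main (A := A * τ ^ (3 * N - x.length)) (B := B * τ ^ (3 * N - y.length))
    (C := C * τ ^ (3 * N - z.length)) (Nat.mul_pos hA (by positivity))
    (Nat.mul_pos hB (by positivity)) (Nat.mul_pos hC (by positivity))
    (hclose' hx fun v hv => by simp [hv]) (hclose' hy fun v hv => by simp [hv])
    (hclose' hz fun v hv => by simp [hv]) (by
      rw [List.length_map, List.length_map, List.length_map]
      have key : ∀ {E' n : ℕ}, n ≤ N → E' * τ ^ (3 * N - n) * S ^ n ≤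
          E' * (s + 1) ^ N * Θ := by
        intro E' n hn
        rw [hS', mul_pow, ← pow_mul]
        calc E' * τ ^ (3 * N - n) * (s ^ n * τ ^ (2 * n))
            = E' * s ^ n * (τ ^ (3 * N - n) * τ ^ (2 * n)) := by ring
          _ = E' * s ^ n * τ ^ (3 * N - n + 2 * n) := by rw [pow_add]
          _ ≤ E' * (s + 1) ^ N * Θ := by
            apply Nat.mul_le_mul
            · apply Nat.mul_le_mul_left
              exact (Nat.pow_le_pow_left (Nat.le_succ s) n).trans
                (Nat.pow_le_pow_right (Nat.succ_pos s) hn)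
            · exact hpow _ (by omega)
      have k1 := key (E' := A) lx
      have k2 := key (E' := B) ly
      have k3 := key (E' := C) lz
      have k4 : 2 * ((A + B + C) * (s + 1) ^ N) * Θ = 2 * (A * (s + 1) ^ N * Θ +
        B * (s + 1) ^ N * Θ + C * (s + 1) ^ N * Θ) := by ring
      omega) (by
      rw [prod_map_mul, prod_map_mul]
      obtain ⟨g, hgg⟩ : ∃ g, g = Nat.gcd x.prod y.prod := ⟨_, rfl⟩
      obtain ⟨g', hgg'⟩ : ∃ g', g' = Nat.gcd (τ ^ x.length * x.prod) (τ ^ y.length * y.prod) :=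
        ⟨_, rfl⟩
      rw [← hgg'] 
      rw [← hgg] at hg
      have g1 : g' ≤ τ ^ x.length * τ ^ y.length * g := by
        rw [hgg', hgg]
        exact gcd_mul_le _ _ _ _ hX (by positivity) (by positivity)
      have g2 : g ≤ q * rad g := by
        have : (g : ℝ) ≤ q * rad g := hg.trans (by gcongr)
        exact_mod_cast this
      have g3 : g ∣ g' := by
        rw [hgg, hgg']
        exact Nat.dvd_gcd ((Nat.gcd_dvd_left _ _).trans (Dvd.intro_left _ rfl))
          ((Nat.gcd_dvd_right _ _).trans (Dvd.intro_left _ rfl))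
      have g4 : rad g ≤ rad g' := rad_mono g3 (by
        rw [hgg']
        exact (Nat.gcd_pos_of_pos_left _ (Nat.mul_pos (by positivity) hX)).ne')
      have g5 : τ ^ x.length * τ ^ y.length ≤ Θ := by
        rw [← pow_add]
        exact hpow _ (by omega)
      have g6 : g' ≤ Θ * (q * rad g') := by
        calc g' ≤ τ ^ x.length * τ ^ y.length * g := g1
          _ ≤ Θ * (q * rad g') := Nat.mul_le_mul g5 (g2.trans (Nat.mul_le_mul_left q g4))
      have g7 : S + 1 + q * Θ < T := by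
        have h1 : S ≤ s * Θ := by rw [hS']; exact Nat.mul_le_mul_left s (hpow 2 (by omega))
        omega
      calc g' + (S + 1) * rad g' ≤ Θ * (q * rad g') + (S + 1) * rad g' := by omega
        _ = (S + 1 + q * Θ) * rad g' := by ring
        _ < T * rad g' := Nat.mul_lt_mul_of_pos_right g7 (rad_pos g')) (by
      rw [prod_map_mul, prod_map_mul, prod_map_mul]
      have key : ∀ {E' n V : ℕ}, n ≤ N → E' * τ ^ (3 * N - n) * (τ ^ n * V) =
          τ ^ (3 * N) * (E' * V) := by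
        intro E' n V hn
        have : τ ^ (3 * N) = τ ^ (3 * N - n) * τ ^ n := by
          rw [← pow_add]
          congr 1
          omega
        rw [this]
        ring
      rw [key lx, key ly, key lz, ← h]
      ring) (by
      refine ⟨τ * v1, ?_, by omega⟩
      rw [← List.map_append, ← List.map_append]
      exact List.mem_map.2 ⟨v1, hv1, rfl⟩)
  have q1 := quot_map_le (S := S) (τ := τ) hx
  have q2 := quot_map_le (S := S) (τ := τ) hy
  have q3 := quot_map_le (S := S) (τ := τ) hz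
  linarith

end Pool.Agent.J4H84.DS
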